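import Mathlib

set_option autoImplicit false

namespace Pool.Agent.Helper49.Pi01

open Nat.Partrec (Code)

section prim

variable {α β γ : Type} [Primcodable α] [Primcodable β] [Primcodable γ]

theorem pp_bex {p : α × β → Prop} (hp : PrimrecPred p) {l : α → List β} (hl : Primrec l) :
    PrimrecPred fun a => ∃ b ∈ l a, p (a, b) := by
  have h1 : PrimrecRel fun (b : β) (a : α) => p (a, b) := hp.comp (Primrec.snd.pair Primrec.fst)
  exact (h1.exists_mem_list.comp hl Primrec.id)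

theorem pp_ball {p : α × β → Prop} (hp : PrimrecPred p) {l : α → List β} (hl : Primrec l) :
    PrimrecPred fun a => ∀ b ∈ l a, p (a, b) := by
  have h1 : PrimrecRel fun (b : β) (a : α) => p (a, b) := hp.comp (Primrec.snd.pair Primrec.fst)
  exact (h1.forall_mem_list.comp hl Primrec.id)

theorem pp_bex_le {p : α × ℕ → Prop} (hp : PrimrecPred p) {l : α → ℕ} (hl : Primrec l) :
    PrimrecPred fun a => ∃ b, b ≤ l a ∧ p (a, b) := by
  refine (pp_bex hp (Primrec.list_range.comp (Primrec.succ.comp hl))).of_eq ?_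
  intro a
  simp only [List.mem_range, Nat.lt_succ_iff, Nat.succ_eq_add_one]

theorem pp_ball_le {p : α × ℕ → Prop} (hp : PrimrecPred p) {l : α → ℕ} (hl : Primrec l) :
    PrimrecPred fun a => ∀ b, b ≤ l a → p (a, b) := by
  refine (pp_ball hp (Primrec.list_range.comp (Primrec.succ.comp hl))).of_eq ?_
  intro a
  simp only [List.mem_range, Nat.lt_succ_iff, Nat.succ_eq_add_one]

theorem pp_true : PrimrecPred fun _ : α => True :=
  ⟨fun _ => isTrue trivial, by simpa using Primrec.const true⟩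

theorem pp_false : PrimrecPred fun _ : α => False :=
  ⟨fun _ => isFalse id, by simpa using Primrec.const false⟩

theorem pp_lt {f g : α → ℕ} (hf : Primrec f) (hg : Primrec g) :
    PrimrecPred fun a => f a < g a := Primrec.nat_lt.comp hf hg

theorem pp_le {f g : α → ℕ} (hf : Primrec f) (hg : Primrec g) :
    PrimrecPred fun a => f a ≤ g a := Primrec.nat_le.comp hf hg

theorem pp_eq {f g : α → β} (hf : Primrec f) (hg : Primrec g) :
    PrimrecPred fun a => f a = g a := Primrec.eq.comp hf hg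

theorem pp_mem {f : α → β} {l : α → List β} (hf : Primrec f) (hl : Primrec l) :
    PrimrecPred fun a => f a ∈ l a := by
  have h : PrimrecPred fun z : α × β => f z.1 = z.2 := pp_eq (hf.comp .fst) .snd
  refine (pp_bex h hl).of_eq ?_
  intro a
  simp

end prim

/-- Sigma-zero-one predicates -/
def S1 {α : Type} [Primcodable α] (p : α → Prop) : Prop :=
  ∃ D : α × ℕ → Prop, PrimrecPred D ∧ ∀ a, p a ↔ ∃ n, D (a, n)

section S1

variable {α β γ : Type} [Primcodable α] [Primcodable β] [Primcodable γ]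

theorem S1.of_eq {p q : α → Prop} (hp : S1 p) (h : ∀ a, p a ↔ q a) : S1 q := by
  obtain ⟨D, hD, h1⟩ := hp
  exact ⟨D, hD, fun a => (h a).symm.trans (h1 a)⟩

theorem S1.prim {p : α → Prop} (hp : PrimrecPred p) : S1 p :=
  ⟨fun z => p z.1, hp.comp Primrec.fst, fun _ => ⟨fun h => ⟨0, h⟩, fun ⟨_, h⟩ => h⟩⟩

theorem S1.comp {p : β → Prop} (hp : S1 p) {f : α → β} (hf : Primrec f) :
    S1 fun a => p (f a) := by
  obtain ⟨D, hD, h1⟩ := hp
  exact ⟨fun z => D (f z.1, z.2), hD.comp ((hf.comp .fst).pair .snd), fun a => h1 (f a)⟩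

theorem S1.and {p q : α → Prop} (hp : S1 p) (hq : S1 q) : S1 fun a => p a ∧ q a := by
  obtain ⟨D, hD, h1⟩ := hp
  obtain ⟨E, hE, h2⟩ := hq
  refine ⟨fun z => D (z.1, z.2.unpair.1) ∧ E (z.1, z.2.unpair.2), ?_, ?_⟩
  · exact (hD.comp (Primrec.fst.pair (Primrec.fst.comp (Primrec.unpair.comp .snd)))).and
      (hE.comp (Primrec.fst.pair (Primrec.snd.comp (Primrec.unpair.comp .snd))))
  · intro a
    constructor
    · rintro ⟨ha, hb⟩
      obtain ⟨m, hm⟩ := (h1 a).1 ha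
      obtain ⟨n, hn⟩ := (h2 a).1 hb
      exact ⟨Nat.pair m n, by simpa using ⟨hm, hn⟩⟩
    · rintro ⟨n, ha, hb⟩
      exact ⟨(h1 a).2 ⟨_, ha⟩, (h2 a).2 ⟨_, hb⟩⟩

theorem S1.or {p q : α → Prop} (hp : S1 p) (hq : S1 q) : S1 fun a => p a ∨ q a := by
  obtain ⟨D, hD, h1⟩ := hp
  obtain ⟨E, hE, h2⟩ := hq
  refine ⟨fun z => D z ∨ E z, hD.or hE, ?_⟩
  intro a
  beta_reduce
  rw [h1 a, h2 a, exists_or]

theorem S1.ex0 {p : α × ℕ → Prop} (hp : S1 p) : S1 fun a => ∃ m, p (a, m) := by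
  obtain ⟨D, hD, h1⟩ := hp
  refine ⟨fun z => D ((z.1, z.2.unpair.1), z.2.unpair.2), ?_, ?_⟩
  · exact hD.comp ((Primrec.fst.pair (Primrec.fst.comp (Primrec.unpair.comp .snd))).pair
      (Primrec.snd.comp (Primrec.unpair.comp .snd)))
  · intro a
    constructor
    · rintro ⟨m, hm⟩
      obtain ⟨n, hn⟩ := (h1 _).1 hm
      exact ⟨Nat.pair m n, by simpa using hn⟩
    · rintro ⟨n, hn⟩
      exact ⟨_, (h1 _).2 ⟨_, hn⟩⟩

/-- a primitive recursive surjection from the naturals -/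
def surj (β : Type) [Primcodable β] [Inhabited β] (n : ℕ) : β := (Encodable.decode n).getD default

theorem surj_prim [Inhabited β] : Primrec (surj β) :=
  Primrec.option_getD.comp Primrec.decode (Primrec.const default)

theorem surj_encode [Inhabited β] (b : β) : surj β (Encodable.encode b) = b := by
  simp [surj]

theorem S1.ex [Inhabited β] {p : α × β → Prop} (hp : S1 p) : S1 fun a => ∃ m, p (a, m) := by
  have h : S1 fun z : α × ℕ => p (z.1, surj β z.2) :=
    hp.comp (Primrec.fst.pair (surj_prim.comp .snd))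
  refine h.ex0.of_eq ?_
  intro a
  constructor
  · rintro ⟨m, hm⟩
    exact ⟨_, hm⟩
  · rintro ⟨m, hm⟩
    exact ⟨Encodable.encode m, by simpa [surj_encode] using hm⟩

theorem S1.ball {p : α × β → Prop} (hp : S1 p) {l : α → List β} (hl : Primrec l) :
    S1 fun a => ∀ b ∈ l a, p (a, b) := by
  obtain ⟨D, hD, h1⟩ := hp
  refine ⟨fun z => ∀ b ∈ l z.1, ∃ n, n ≤ z.2 ∧ D ((z.1, b), n), ?_, ?_⟩
  · have e1 : PrimrecPred fun y : (α × ℕ) × β => ∃ n, n ≤ y.1.2 ∧ D ((y.1.1, y.2), n) := by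
      have e2 : PrimrecPred fun w : ((α × ℕ) × β) × ℕ => D ((w.1.1.1, w.1.2), w.2) :=
        hD.comp (((Primrec.fst.comp (Primrec.fst.comp .fst)).pair (Primrec.snd.comp .fst)).pair .snd)
      exact pp_bex_le e2 (Primrec.snd.comp .fst)
    exact pp_ball e1 (hl.comp .fst)
  · intro a
    constructor
    · intro h
      have h2 : ∀ b : β, ∃ n, b ∈ l a → D ((a, b), n) := by
        intro b
        by_cases hb : b ∈ l a
        · obtain ⟨n, hn⟩ := (h1 _).1 (h b hb)
          exact ⟨n, fun _ => hn⟩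
        · exact ⟨0, fun h => (hb h).elim⟩
      choose f hf using h2
      refine ⟨((l a).map f).sum, fun b hb => ⟨f b, ?_, hf b hb⟩⟩
      exact List.single_le_sum (fun _ _ => Nat.zero_le _) _ (List.mem_map_of_mem hb)
    · rintro ⟨n, hn⟩ b hb
      obtain ⟨m, _, hm⟩ := hn b hb
      exact (h1 _).2 ⟨m, hm⟩

theorem S1.ball_le {p : α × ℕ → Prop} (hp : S1 p) {l : α → ℕ} (hl : Primrec l) :
    S1 fun a => ∀ b, b ≤ l a → p (a, b) := by
  refine (hp.ball (Primrec.list_range.comp (Primrec.succ.comp hl))).of_eq ?_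
  intro a
  simp only [List.mem_range, Nat.lt_succ_iff, Nat.succ_eq_add_one]

/-- monotone stage version -/
theorem S1.mono {p : α → Prop} (hp : S1 p) :
    ∃ D : α × ℕ → Prop, PrimrecPred D ∧ (∀ a m n, m ≤ n → D (a, m) → D (a, n)) ∧
      ∀ a, p a ↔ ∃ n, D (a, n) := by
  obtain ⟨D, hD, h1⟩ := hp
  refine ⟨fun z => ∃ n, n ≤ z.2 ∧ D (z.1, n), ?_, ?_, ?_⟩
  · have e2 : PrimrecPred fun w : (α × ℕ) × ℕ => D (w.1.1, w.2) :=
      hD.comp ((Primrec.fst.comp .fst).pair .snd)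
    exact pp_bex_le e2 .snd
  · rintro a m n hmn ⟨k, hk, hk2⟩
    exact ⟨k, hk.trans hmn, hk2⟩
  · intro a
    rw [h1 a]
    constructor
    · rintro ⟨n, hn⟩
      exact ⟨n, n, le_rfl, hn⟩
    · rintro ⟨n, m, _, hm⟩
      exact ⟨m, hm⟩

end S1

/-- The Sigma hierarchy above Sigma-one: `Sg n` is Sigma^0_{n+1}. -/
def Sg : ℕ → ∀ {α : Type} [Primcodable α], (α → Prop) → Prop
  | 0, _, _, p => S1 p
  | n + 1, α, _, p => ∃ q : α × ℕ → Prop, Sg n q ∧ ∀ a, p a ↔ ∃ m, ¬ q (a, m)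

/-- The Pi hierarchy -/
def Pg (n : ℕ) {α : Type} [Primcodable α] (p : α → Prop) : Prop := Sg n fun a => ¬ p a

section Sg

variable {α β γ : Type} [Primcodable α] [Primcodable β] [Primcodable γ]

theorem Sg.of_eq {n : ℕ} {p q : α → Prop} (hp : Sg n p) (h : ∀ a, p a ↔ q a) : Sg n q := by
  have : p = q := funext fun a => propext (h a)
  exact this ▸ hp

theorem Pg.of_eq {n : ℕ} {p q : α → Prop} (hp : Pg n p) (h : ∀ a, p a ↔ q a) : Pg n q := by
  have : p = q := funext fun a => propext (h a)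
  exact this ▸ hp

theorem Sg.comp {n : ℕ} : ∀ {α β : Type} [Primcodable α] [Primcodable β] {p : β → Prop}
    (_ : Sg n p) {f : α → β} (_ : Primrec f), Sg n fun a => p (f a) := by
  induction n with
  | zero => intro α β _ _ p hp f hf; exact S1.comp hp hf
  | succ n ih =>
    intro α β _ _ p hp f hf
    obtain ⟨q, hq, h1⟩ := hp
    exact ⟨fun z => q (f z.1, z.2), ih hq ((hf.comp .fst).pair .snd), fun a => h1 (f a)⟩

theorem Pg.comp {n : ℕ} {p : β → Prop} (hp : Pg n p) {f : α → β} (hf : Primrec f) :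
    Pg n fun a => p (f a) := Sg.comp (p := fun b => ¬ p b) hp hf

theorem Sg.andor {n : ℕ} : ∀ {α : Type} [Primcodable α] {p q : α → Prop}
    (_ : Sg n p) (_ : Sg n q), Sg n (fun a => p a ∧ q a) ∧ Sg n (fun a => p a ∨ q a) := by
  induction n with
  | zero => intro α _ p q hp hq; exact ⟨S1.and hp hq, S1.or hp hq⟩
  | succ n ih =>
    intro α _ p q hp hq
    obtain ⟨p', hp', h1⟩ := hp
    obtain ⟨q', hq', h2⟩ := hq
    constructor
    · refine ⟨fun z => p' (z.1, z.2.unpair.1) ∨ q' (z.1, z.2.unpair.2), ?_, ?_⟩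
      · exact (ih (Sg.comp hp' (Primrec.fst.pair (Primrec.fst.comp (Primrec.unpair.comp .snd))))
          (Sg.comp hq' (Primrec.fst.pair (Primrec.snd.comp (Primrec.unpair.comp .snd))))).2
      · intro a
        beta_reduce
        rw [h1 a, h2 a]
        constructor
        · rintro ⟨⟨m, hm⟩, ⟨k, hk⟩⟩
          refine ⟨Nat.pair m k, ?_⟩
          simp only [Nat.unpair_pair]
          tauto
        · rintro ⟨m, hm⟩
          rw [not_or] at hm
          exact ⟨⟨_, hm.1⟩, ⟨_, hm.2⟩⟩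
    · refine ⟨fun z => p' z ∧ q' z, (ih hp' hq').1, ?_⟩
      intro a
      beta_reduce
      rw [h1 a, h2 a, ← exists_or]
      simp only [not_and_or]

theorem Sg.and {n : ℕ} {p q : α → Prop} (hp : Sg n p) (hq : Sg n q) : Sg n fun a => p a ∧ q a :=
  (Sg.andor hp hq).1

theorem Sg.or {n : ℕ} {p q : α → Prop} (hp : Sg n p) (hq : Sg n q) : Sg n fun a => p a ∨ q a :=
  (Sg.andor hp hq).2

theorem Pg.and {n : ℕ} {p q : α → Prop} (hp : Pg n p) (hq : Pg n q) : Pg n fun a => p a ∧ q a :=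
  (Sg.or hp hq).of_eq fun _ => not_and_or.symm

theorem Pg.or {n : ℕ} {p q : α → Prop} (hp : Pg n p) (hq : Pg n q) : Pg n fun a => p a ∨ q a :=
  (Sg.and hp hq).of_eq fun _ => not_or.symm

theorem Sg.not {n : ℕ} {p : α → Prop} (hp : Sg n p) : Pg n fun a => ¬ p a :=
  hp.of_eq fun _ => not_not.symm

theorem Pg.not {n : ℕ} {p : α → Prop} (hp : Pg n p) : Sg n fun a => ¬ p a := hp

theorem Pg.imp {n : ℕ} {p q : α → Prop} (hp : Sg n p) (hq : Pg n q) : Pg n fun a => p a → q a :=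
  (hp.not.or hq).of_eq fun _ => imp_iff_not_or.symm

theorem Sg.imp {n : ℕ} {p q : α → Prop} (hp : Pg n p) (hq : Sg n q) : Sg n fun a => p a → q a :=
  (hp.not.or hq).of_eq fun _ => imp_iff_not_or.symm

theorem Sg.negUp {n : ℕ} {p : α → Prop} (hp : Sg n p) : Sg (n + 1) fun a => ¬ p a :=
  ⟨fun z => p z.1, hp.comp Primrec.fst, fun _ => ⟨fun h => ⟨0, h⟩, fun ⟨_, h⟩ => h⟩⟩

theorem Pg.up' {n : ℕ} {p : α → Prop} (hp : Pg n p) : Sg (n + 1) p :=
  (Sg.negUp (p := fun a => ¬ p a) hp).of_eq fun _ => not_not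

theorem Sg.up' {n : ℕ} {p : α → Prop} (hp : Sg n p) : Pg (n + 1) p := Sg.negUp hp

theorem Sg.up {n : ℕ} : ∀ {α : Type} [Primcodable α] {p : α → Prop} (_ : Sg n p),
    Sg (n + 1) p := by
  induction n with
  | zero =>
    intro α _ p hp
    obtain ⟨D, hD, h1⟩ := hp
    refine ⟨fun z => ¬ D z, S1.prim hD.not, fun a => ?_⟩
    simp only [not_not]
    exact h1 a
  | succ n ih =>
    intro α _ p hp
    obtain ⟨q, hq, h1⟩ := hp
    exact ⟨q, ih hq, h1⟩

theorem Pg.up {n : ℕ} {p : α → Prop} (hp : Pg n p) : Pg (n + 1) p := Sg.up hp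

theorem Sg.ex0 {n : ℕ} {p : α × ℕ → Prop} (hp : Sg n p) : Sg n fun a => ∃ m, p (a, m) := by
  cases n with
  | zero => exact S1.ex0 hp
  | succ n =>
    obtain ⟨q, hq, h1⟩ := hp
    refine ⟨fun z => q ((z.1, z.2.unpair.1), z.2.unpair.2), ?_, ?_⟩
    · exact Sg.comp hq ((Primrec.fst.pair (Primrec.fst.comp (Primrec.unpair.comp .snd))).pair
        (Primrec.snd.comp (Primrec.unpair.comp .snd)))
    · intro a
      constructor
      · rintro ⟨m, hm⟩
        obtain ⟨n, hn⟩ := (h1 _).1 hm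
        exact ⟨Nat.pair m n, by simpa using hn⟩
      · rintro ⟨n, hn⟩
        exact ⟨_, (h1 _).2 ⟨_, hn⟩⟩

theorem Sg.ex [Inhabited β] {n : ℕ} {p : α × β → Prop} (hp : Sg n p) :
    Sg n fun a => ∃ m, p (a, m) := by
  have h : Sg n fun z : α × ℕ => p (z.1, surj β z.2) :=
    hp.comp (Primrec.fst.pair (surj_prim.comp .snd))
  refine h.ex0.of_eq ?_
  intro a
  constructor
  · rintro ⟨m, hm⟩
    exact ⟨_, hm⟩
  · rintro ⟨m, hm⟩
    exact ⟨Encodable.encode m, by simpa [surj_encode] using hm⟩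

theorem Pg.all [Inhabited β] {n : ℕ} {p : α × β → Prop} (hp : Pg n p) :
    Pg n fun a => ∀ m, p (a, m) :=
  (Sg.ex (p := fun z => ¬ p z) hp).of_eq fun _ => not_forall.symm

theorem Sg.prim {n : ℕ} : ∀ {α : Type} [Primcodable α] {p : α → Prop} (_ : PrimrecPred p),
    Sg n p := by
  induction n with
  | zero => intro α _ p hp; exact S1.prim hp
  | succ n ih => intro α _ p hp; exact (ih hp).up

theorem Pg.prim {n : ℕ} {p : α → Prop} (hp : PrimrecPred p) : Pg n p := Sg.prim hp.not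

end Sg

/-- universal Sigma-one predicate -/
def Un0 (e x : ℕ) : Prop := ∃ y, y ∈ Code.eval (Denumerable.ofNat Code e) x

theorem S1_eval : S1 fun z : (Code × ℕ) × ℕ => z.2 ∈ Code.eval z.1.1 z.1.2 := by
  refine ⟨fun w => Code.evaln w.2 w.1.1.1 w.1.1.2 = some w.1.2, ?_, ?_⟩
  · refine pp_eq ?_ (Primrec.option_some.comp (Primrec.snd.comp .fst))
    exact Code.primrec_evaln.comp ((Primrec.snd.pair (Primrec.fst.comp (Primrec.fst.comp .fst))).pair
      (Primrec.snd.comp (Primrec.fst.comp .fst)))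
  · intro z
    beta_reduce
    rw [Code.evaln_complete]
    simp only [Option.mem_def]

theorem S1_Un0 : S1 fun z : ℕ × ℕ => Un0 z.1 z.2 := by
  have h : S1 fun z : (ℕ × ℕ) × ℕ => z.2 ∈ Code.eval (Denumerable.ofNat Code z.1.1) z.1.2 :=
    S1_eval.comp (((Primrec.ofNat Code).comp (Primrec.fst.comp .fst)).pair
      (Primrec.snd.comp .fst) |>.pair .snd)
  exact h.ex0

theorem S1.partrec {α : Type} [Primcodable α] {D : α × ℕ → Prop} (hD : PrimrecPred D) :
    ∃ f : α →. ℕ, Partrec f ∧ (∀ a, (f a).Dom ↔ ∃ n, D (a, n)) ∧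
      ∀ a n, n ∈ f a → D (a, n) := by
  obtain ⟨hdec, hD⟩ := hD
  refine ⟨fun a => Nat.rfind fun n => Part.some (decide (D (a, n))), ?_, ?_, ?_⟩
  · refine Partrec.rfind ?_
    exact (Primrec.to_comp hD : Computable _).partrec
  · intro a
    refine Nat.rfind_dom.trans ?_
    constructor
    · rintro ⟨n, hn, _⟩
      exact ⟨n, by simpa using hn⟩
    · rintro ⟨n, hn⟩
      exact ⟨n, by simpa using hn, fun _ => trivial⟩
  · intro a n hn
    have := Nat.rfind_spec hn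
    simpa using this

theorem S1_univ {p : ℕ → Prop} (hp : S1 p) : ∃ e, ∀ x, p x ↔ Un0 e x := by
  obtain ⟨D, hD, h1⟩ := hp
  obtain ⟨f, hf, h2, _⟩ := S1.partrec hD
  obtain ⟨c, hc⟩ := Code.exists_code.1 (Partrec.nat_iff.1 hf)
  refine ⟨Encodable.encode c, fun x => ?_⟩
  unfold Un0
  rw [Denumerable.ofNat_encode, hc, h1 x, ← h2 x, Part.dom_iff_mem]

/-- universal predicates at higher levels -/
def Un : ℕ → ℕ → ℕ → Prop
  | 0, e, x => Un0 e x
  | n + 1, e, x => ∃ y, ¬ Un n e (Nat.pair x y)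

theorem Sg_univ {n : ℕ} : ∀ {p : ℕ → Prop} (_ : Sg n p), ∃ e, ∀ x, p x ↔ Un n e x := by
  induction n with
  | zero => intro p hp; exact S1_univ hp
  | succ n ih =>
    intro p hp
    obtain ⟨q, hq, h1⟩ := hp
    obtain ⟨e, he⟩ := ih (p := fun z => q (z.unpair.1, z.unpair.2))
      (Sg.comp hq (Primrec.unpair))
    refine ⟨e, fun x => ?_⟩
    rw [h1 x]
    unfold Un
    simp only [← he, Nat.unpair_pair]

theorem diag (n : ℕ) : ¬ Sg n fun k : ℕ => ¬ Un n k k := by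
  intro h
  obtain ⟨e, he⟩ := Sg_univ h
  have := he e
  tauto

/-- the dominating function -/
noncomputable def H (v : ℕ) : ℕ :=
  sSup {m | ∃ e, e ≤ v ∧ ∃ y, y ∈ Code.eval (Denumerable.ofNat Code e) v ∧ m = y + 1}

theorem H_bdd (v : ℕ) :
    BddAbove {m | ∃ e, e ≤ v ∧ ∃ y, y ∈ Code.eval (Denumerable.ofNat Code e) v ∧ m = y + 1} := by
  classical
  have : {m | ∃ e, e ≤ v ∧ ∃ y, y ∈ Code.eval (Denumerable.ofNat Code e) v ∧ m = y + 1} ⊆
      (fun e => if h : (Code.eval (Denumerable.ofNat Code e) v).Dom then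
        (Code.eval (Denumerable.ofNat Code e) v).get h + 1 else 0) '' Set.Iic v := by
    rintro m ⟨e, he, y, hy, rfl⟩
    refine ⟨e, he, ?_⟩
    obtain ⟨h, hh⟩ := hy
    simp only [h, dif_pos, hh]
  exact ((Set.finite_Iic v).image _).subset this |>.bddAbove

theorem lt_H {m v : ℕ} : m < H v ↔
    ∃ e, e ≤ v ∧ ∃ y, y ∈ Code.eval (Denumerable.ofNat Code e) v ∧ m ≤ y := by
  constructor
  · intro h
    by_contra hcon
    push Not at hcon
    have : H v ≤ m := by
      unfold H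
      rcases Set.eq_empty_or_nonempty {m | ∃ e, e ≤ v ∧ ∃ y, y ∈ Code.eval (Denumerable.ofNat Code e) v ∧ m = y + 1} with h0 | h0
      · rw [h0]; simp
      · refine csSup_le h0 ?_
        rintro x ⟨e, he, y, hy, rfl⟩
        exact hcon e he y hy
    omega
  · rintro ⟨e, he, y, hy, hm⟩
    have : y + 1 ≤ H v := le_csSup (H_bdd v) ⟨e, he, y, hy, rfl⟩
    omega

theorem S1_H : S1 fun z : ℕ × ℕ => z.1 < H z.2 := by
  have h1 : S1 fun w : ((ℕ × ℕ) × ℕ) × ℕ =>
      w.1.2 ≤ w.1.1.2 ∧ w.2 ∈ Code.eval (Denumerable.ofNat Code w.1.2) w.1.1.2 ∧ w.1.1.1 ≤ w.2 := by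
    refine S1.and (S1.prim (pp_le (Primrec.snd.comp .fst)
      (Primrec.snd.comp (Primrec.fst.comp .fst)))) (S1.and ?_ ?_)
    · exact S1_eval.comp (f := fun w : ((ℕ × ℕ) × ℕ) × ℕ => ((Denumerable.ofNat Code w.1.2, w.1.1.2), w.2))
        ((((Primrec.ofNat Code).comp (Primrec.snd.comp .fst)).pair
          (Primrec.snd.comp (Primrec.fst.comp .fst))).pair .snd)
    · exact S1.prim (pp_le (Primrec.fst.comp (Primrec.fst.comp .fst)) .snd)
  refine (h1.ex0.ex0).of_eq ?_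
  intro z
  rw [lt_H]
  constructor
  · rintro ⟨e, y, h1, h2, h3⟩
    exact ⟨e, h1, y, h2, h3⟩
  · rintro ⟨e, h1, y, h2, h3⟩
    exact ⟨e, y, h1, h2, h3⟩

/-- dominance: a Sigma-one relation bounded below by `H` has finite domain -/
theorem H_dom {q : ℕ × ℕ → Prop} (hq : S1 q) (h : ∀ v m, q (v, m) → H v ≤ m) :
    {v | ∃ m, q (v, m)}.Finite := by
  obtain ⟨D, hD, h1⟩ := hq
  have hD' : PrimrecPred fun w : ℕ × ℕ => D ((w.1, w.2.unpair.1), w.2.unpair.2) :=
    hD.comp ((Primrec.fst.pair (Primrec.fst.comp (Primrec.unpair.comp .snd))).pair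
      (Primrec.snd.comp (Primrec.unpair.comp .snd)))
  obtain ⟨f, hf, h2, h3⟩ := S1.partrec hD'
  obtain ⟨c, hc⟩ := Code.exists_code.1 (Partrec.nat_iff.1 hf)
  refine (Set.finite_Iio (Encodable.encode c)).subset ?_
  rintro v ⟨m, hm⟩
  by_contra hcon
  simp only [Set.mem_Iio, not_lt] at hcon
  obtain ⟨n, hn⟩ := (h1 _).1 hm
  have hdom : (f v).Dom := (h2 v).2 ⟨Nat.pair m n, by simpa using hn⟩
  obtain ⟨y, hy⟩ := Part.dom_iff_mem.1 hdom
  have hy2 := h3 v y hy
  have hy3 : q (v, y.unpair.1) := (h1 _).2 ⟨_, hy2⟩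
  have hy4 := h v _ hy3
  have : y < H v := lt_H.2 ⟨Encodable.encode c, hcon, y, by rw [Denumerable.ofNat_encode, hc]; exact hy, le_rfl⟩
  have := Nat.unpair_left_le y
  omega

end Pool.Agent.Helper49.Pi01
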