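import Pool.Agent.Helper49.Pi01.Open

set_option autoImplicit false

namespace Pool.Agent.Helper49.Pi01

open Nat.Partrec (Code)

section prj
variable {α β γ : Type} [Primcodable α] [Primcodable β] [Primcodable γ]
theorem p_id : Primrec fun a : α => a := Primrec.id
theorem p_const (b : β) : Primrec fun _ : α => b := Primrec.const b
theorem p_fst {f : α → β × γ} (h : Primrec f) : Primrec fun a => (f a).1 := Primrec.fst.comp h
theorem p_snd {f : α → β × γ} (h : Primrec f) : Primrec fun a => (f a).2 := Primrec.snd.comp h
theorem p_pair {f : α → β} {g : α → γ} (h : Primrec f) (h' : Primrec g) :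
    Primrec fun a => (f a, g a) := Primrec.pair h h'
end prj

/-- c.e. open set with code e -/
def O (e : ℕ) : Set X := {x | ∃ k, Un0 e (Encodable.encode (pre x k))}

theorem S1_UnE : S1 fun z : ℕ × List Bool => Un0 z.1 (Encodable.encode z.2) :=
  S1_Un0.comp (f := fun z : ℕ × List Bool => (z.1, Encodable.encode z.2))
    (Primrec.fst.pair (Primrec.encode.comp .snd))

theorem IsO_O (e : ℕ) : IsO (O e) :=
  ⟨fun τ => Un0 e (Encodable.encode τ),
    S1_UnE.comp (f := fun τ : List Bool => (e, τ)) (by repeat (first | with_reducible exact p_id | with_reducible exact p_const _ | with_reducible refine p_fst ?_ | with_reducible refine p_snd ?_ | with_reducible refine p_pair ?_ ?_)), fun _ => Iff.rfl⟩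

def oc (e : ℕ) : L1 := ⟨O e, IsO_O e⟩

theorem S1_univ' {p : List Bool → Prop} (hp : S1 p) :
    ∃ e, ∀ x, p x ↔ Un0 e (Encodable.encode x) := by
  have h : S1 fun n : ℕ => p (surj (List Bool) n) := hp.comp surj_prim
  obtain ⟨e, he⟩ := S1_univ h
  exact ⟨e, fun x => by rw [← he, surj_encode]⟩

theorem oc_surj (W : L1) : ∃ e, oc e = W := by
  obtain ⟨W, p, hp, h1⟩ := W
  obtain ⟨e, he⟩ := S1_univ' hp
  refine ⟨e, Subtype.ext (Set.ext fun x => ?_)⟩
  change (∃ k, Un0 e (Encodable.encode (pre x k))) ↔ x ∈ W
  rw [h1]
  simp only [he]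

/-- codes of clopen sets -/
abbrev B := ℕ × List (List Bool)

def C (b : B) : Set X := {x | pre x b.1 ∈ b.2}

theorem IsO_C (b : B) : IsO (C b) := by
  refine ⟨fun τ => b.1 ≤ τ.length ∧ τ.take b.1 ∈ b.2, S1.prim (PrimrecPred.and ?_ ?_), fun x => ?_⟩
  · exact pp_le (Primrec.const _) Primrec.list_length
  · exact pp_mem (Primrec.list_take.comp (Primrec.const _) Primrec.id) (Primrec.const _)
  · constructor
    · intro h
      refine ⟨b.1, by rw [pre_length], ?_⟩
      rw [pre_take_le _ le_rfl]
      exact h
    · rintro ⟨k, hk1, hk2⟩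
      rw [pre_length] at hk1
      rw [pre_take_le _ hk1] at hk2
      exact hk2

theorem IsO_C' (b : B) : IsO {x | x ∉ C b} := by
  refine ⟨fun τ => b.1 ≤ τ.length ∧ ¬ τ.take b.1 ∈ b.2, S1.prim (PrimrecPred.and ?_ ?_), fun x => ?_⟩
  · exact pp_le (Primrec.const _) Primrec.list_length
  · exact (pp_mem (Primrec.list_take.comp (Primrec.const _) Primrec.id) (Primrec.const _)).not
  · constructor
    · intro h
      refine ⟨b.1, by rw [pre_length], ?_⟩
      rw [pre_take_le _ le_rfl]
      exact h
    · rintro ⟨k, hk1, hk2⟩
      rw [pre_length] at hk1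
      rw [pre_take_le _ hk1] at hk2
      exact hk2

def cc (b : B) : L1 := ⟨C b, IsO_C b⟩

theorem cc_compl (b : B) : IsComplemented (cc b) := L1_compl.2 (IsO_C' b)

theorem isOpen_pre (P : List Bool → Prop) (k : ℕ) : IsOpen {x : X | P (pre x k)} := by
  rw [isOpen_iff_forall_mem_open]
  intro x hx
  refine ⟨{y | pre y k = pre x k}, fun y hy => ?_, ?_, rfl⟩
  · simp only [Set.mem_ofPred_eq] at hy hx ⊢
    rwa [hy]
  · have : {y : X | pre y k = pre x k} = ⋂ i ∈ Finset.range k, {y : X | y i = x i} := by
      ext y
      simp only [Set.mem_ofPred_eq, Set.mem_iInter, pre_eq_iff, Finset.mem_range]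
    rw [this]
    refine isOpen_biInter_finset fun i _ => ?_
    have h2 : IsOpen ({x i} : Set Bool) := isOpen_discrete _
    exact h2.preimage (continuous_apply (A := fun _ : ℕ => Bool) i)

/-- compactness of Cantor space -/
theorem cpt (P : ℕ → List Bool → Prop) (hcov : ∀ x : X, ∃ k, P k (pre x k)) :
    ∃ N, ∀ x : X, ∃ k, k ≤ N ∧ P k (pre x k) := by
  obtain ⟨t, ht⟩ := (isCompact_univ (X := X)).elim_finite_subcover
    (fun k => {x : X | P k (pre x k)}) (fun k => isOpen_pre _ _)
    (fun x _ => Set.mem_iUnion.2 (hcov x))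
  refine ⟨t.sup id, fun x => ?_⟩
  obtain ⟨k, hk, hx⟩ := Set.mem_iUnion₂.1 (ht (Set.mem_univ x))
  exact ⟨k, Finset.le_sup (f := id) hk, hx⟩

theorem cc_surj (W : L1) (hW : IsComplemented W) : ∃ b, cc b = W := by
  classical
  obtain ⟨q, hq, h2⟩ := L1_compl.1 hW
  obtain ⟨W, p, hp, h1⟩ := W
  obtain ⟨N, hN⟩ := cpt (fun k τ => p τ ∨ q τ) (fun x => by
    by_cases hx : x ∈ W
    · obtain ⟨k, hk⟩ := (h1 x).1 hx
      exact ⟨k, Or.inl hk⟩
    · obtain ⟨k, hk⟩ := (h2 x).1 hx
      exact ⟨k, Or.inr hk⟩)
  refine ⟨(N, (strs N).filter fun τ => ∃ k, k ≤ N ∧ p (τ.take k)), Subtype.ext (Set.ext fun x => ?_)⟩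
  change pre x N ∈ (strs N).filter _ ↔ x ∈ W
  rw [List.mem_filter, decide_eq_true_eq]
  constructor
  · rintro ⟨_, k, hk, hk2⟩
    rw [pre_take_le _ hk] at hk2
    exact (h1 x).2 ⟨k, hk2⟩
  · intro hx
    refine ⟨pre_mem_strs x N, ?_⟩
    obtain ⟨k, hk, hk2 | hk2⟩ := hN x
    · exact ⟨k, hk, by rwa [pre_take_le _ hk]⟩
    · exact ((h2 x).2 ⟨k, hk2⟩ hx).elim

theorem ext_mem_C (b : B) (τ : List Bool) (h : b.1 ≤ τ.length) :
    ext τ ∈ C b ↔ τ.take b.1 ∈ b.2 := by
  change pre (ext τ) b.1 ∈ b.2 ↔ _
  rw [← pre_take_le (ext τ) h, pre_ext]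

theorem mem_C_take (b : B) (x : X) {n : ℕ} (h : b.1 ≤ n) :
    (pre x n).take b.1 ∈ b.2 ↔ x ∈ C b := by
  rw [pre_take_le _ h]; rfl

theorem pp_CC : PrimrecPred fun z : B × B => cc z.1 ≤ cc z.2 := by
  have h : PrimrecPred fun w : (B × B) × List Bool =>
      ¬ (w.2.take w.1.1.1 ∈ w.1.1.2) ∨ w.2.take w.1.2.1 ∈ w.1.2.2 := by
    refine PrimrecPred.or (PrimrecPred.not ?_) ?_
    · exact pp_mem (Primrec.list_take.comp (by repeat (first | with_reducible exact p_id | with_reducible exact p_const _ | with_reducible refine p_fst ?_ | with_reducible refine p_snd ?_ | with_reducible refine p_pair ?_ ?_)) (by repeat (first | with_reducible exact p_id | with_reducible exact p_const _ | with_reducible refine p_fst ?_ | with_reducible refine p_snd ?_ | with_reducible refine p_pair ?_ ?_))) (by repeat (first | with_reducible exact p_id | with_reducible exact p_const _ | with_reducible refine p_fst ?_ | with_reducible refine p_snd ?_ | with_reducible refine p_pair ?_ ?_))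
    · exact pp_mem (Primrec.list_take.comp (by repeat (first | with_reducible exact p_id | with_reducible exact p_const _ | with_reducible refine p_fst ?_ | with_reducible refine p_snd ?_ | with_reducible refine p_pair ?_ ?_)) (by repeat (first | with_reducible exact p_id | with_reducible exact p_const _ | with_reducible refine p_fst ?_ | with_reducible refine p_snd ?_ | with_reducible refine p_pair ?_ ?_))) (by repeat (first | with_reducible exact p_id | with_reducible exact p_const _ | with_reducible refine p_fst ?_ | with_reducible refine p_snd ?_ | with_reducible refine p_pair ?_ ?_))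
  have hl : Primrec fun z : B × B => strs (z.1.1 + z.2.1) :=
    strs_prim.comp (Primrec.nat_add.comp (by repeat (first | with_reducible exact p_id | with_reducible exact p_const _ | with_reducible refine p_fst ?_ | with_reducible refine p_snd ?_ | with_reducible refine p_pair ?_ ?_)) (by repeat (first | with_reducible exact p_id | with_reducible exact p_const _ | with_reducible refine p_fst ?_ | with_reducible refine p_snd ?_ | with_reducible refine p_pair ?_ ?_)))
  refine (pp_ball h hl).of_eq ?_
  rintro ⟨b, c⟩
  rw [L1_le]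
  constructor
  · intro h x hx
    have := h (pre x (b.1 + c.1)) (pre_mem_strs _ _)
    simp only at this
    rw [mem_C_take _ _ (Nat.le_add_right _ _), mem_C_take _ _ (Nat.le_add_left _ _)] at this
    exact this.resolve_left fun h => h hx
  · intro h τ hτ
    rw [mem_strs] at hτ
    simp only at hτ ⊢
    rw [← ext_mem_C b τ (by omega), ← ext_mem_C c τ (by omega)]
    have := h (ext τ)
    change ext τ ∈ C b → ext τ ∈ C c at this
    tauto

theorem pp_CD : PrimrecPred fun z : B × B => Disjoint (cc z.1) (cc z.2) := by
  have h : PrimrecPred fun w : (B × B) × List Bool =>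
      ¬ (w.2.take w.1.1.1 ∈ w.1.1.2) ∨ ¬ w.2.take w.1.2.1 ∈ w.1.2.2 := by
    refine PrimrecPred.or (PrimrecPred.not ?_) (PrimrecPred.not ?_)
    · exact pp_mem (Primrec.list_take.comp (by repeat (first | with_reducible exact p_id | with_reducible exact p_const _ | with_reducible refine p_fst ?_ | with_reducible refine p_snd ?_ | with_reducible refine p_pair ?_ ?_)) (by repeat (first | with_reducible exact p_id | with_reducible exact p_const _ | with_reducible refine p_fst ?_ | with_reducible refine p_snd ?_ | with_reducible refine p_pair ?_ ?_))) (by repeat (first | with_reducible exact p_id | with_reducible exact p_const _ | with_reducible refine p_fst ?_ | with_reducible refine p_snd ?_ | with_reducible refine p_pair ?_ ?_))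
    · exact pp_mem (Primrec.list_take.comp (by repeat (first | with_reducible exact p_id | with_reducible exact p_const _ | with_reducible refine p_fst ?_ | with_reducible refine p_snd ?_ | with_reducible refine p_pair ?_ ?_)) (by repeat (first | with_reducible exact p_id | with_reducible exact p_const _ | with_reducible refine p_fst ?_ | with_reducible refine p_snd ?_ | with_reducible refine p_pair ?_ ?_))) (by repeat (first | with_reducible exact p_id | with_reducible exact p_const _ | with_reducible refine p_fst ?_ | with_reducible refine p_snd ?_ | with_reducible refine p_pair ?_ ?_))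
  have hl : Primrec fun z : B × B => strs (z.1.1 + z.2.1) :=
    strs_prim.comp (Primrec.nat_add.comp (by repeat (first | with_reducible exact p_id | with_reducible exact p_const _ | with_reducible refine p_fst ?_ | with_reducible refine p_snd ?_ | with_reducible refine p_pair ?_ ?_)) (by repeat (first | with_reducible exact p_id | with_reducible exact p_const _ | with_reducible refine p_fst ?_ | with_reducible refine p_snd ?_ | with_reducible refine p_pair ?_ ?_)))
  refine (pp_ball h hl).of_eq ?_
  rintro ⟨b, c⟩
  rw [L1_disj]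
  constructor
  · intro h x hx
    have := h (pre x (b.1 + c.1)) (pre_mem_strs _ _)
    simp only at this
    rw [mem_C_take _ _ (Nat.le_add_right _ _), mem_C_take _ _ (Nat.le_add_left _ _)] at this
    exact this.resolve_left fun h => h hx
  · intro h τ hτ
    rw [mem_strs] at hτ
    simp only at hτ ⊢
    rw [← ext_mem_C b τ (by omega), ← ext_mem_C c τ (by omega)]
    have := h (ext τ)
    change ext τ ∈ C b → ext τ ∉ C c at this
    tauto

/-- clopen set contained in a finite union of c.e. open sets -/
theorem S1_sub : S1 fun z : B × List ℕ => ∀ x, x ∈ C z.1 → ∃ e, e ∈ z.2 ∧ x ∈ O e := by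
  have hP : S1 fun w : List ℕ × List Bool => ∃ e ∈ w.1, Un0 e (Encodable.encode w.2) := by
    have h1 : S1 fun v : (List ℕ × List Bool) × ℕ => v.2 ∈ v.1.1 ∧ Un0 v.2 (Encodable.encode v.1.2) := by
      refine S1.and (S1.prim (pp_mem (by repeat (first | with_reducible exact p_id | with_reducible exact p_const _ | with_reducible refine p_fst ?_ | with_reducible refine p_snd ?_ | with_reducible refine p_pair ?_ ?_)) (by repeat (first | with_reducible exact p_id | with_reducible exact p_const _ | with_reducible refine p_fst ?_ | with_reducible refine p_snd ?_ | with_reducible refine p_pair ?_ ?_)))) ?_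
      exact S1_UnE.comp (f := fun v : (List ℕ × List Bool) × ℕ => (v.2, v.1.2)) (by repeat (first | with_reducible exact p_id | with_reducible exact p_const _ | with_reducible refine p_fst ?_ | with_reducible refine p_snd ?_ | with_reducible refine p_pair ?_ ?_))
    exact h1.ex0
  obtain ⟨D, hD, hmono, h1⟩ := hP.mono
  refine ⟨fun z => ∀ τ ∈ strs (z.1.1.1 + z.2), (¬ τ.take z.1.1.1 ∈ z.1.1.2) ∨
    ∃ k, k ≤ z.2 ∧ D ((z.1.2, τ.take k), z.2), ?_, ?_⟩
  · have h3 : PrimrecPred fun w : ((B × List ℕ) × ℕ) × List Bool =>
        (¬ w.2.take w.1.1.1.1 ∈ w.1.1.1.2) ∨ ∃ k, k ≤ w.1.2 ∧ D ((w.1.1.2, w.2.take k), w.1.2) := by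
      refine PrimrecPred.or (PrimrecPred.not ?_) ?_
      · exact pp_mem (Primrec.list_take.comp (by repeat (first | with_reducible exact p_id | with_reducible exact p_const _ | with_reducible refine p_fst ?_ | with_reducible refine p_snd ?_ | with_reducible refine p_pair ?_ ?_)) (by repeat (first | with_reducible exact p_id | with_reducible exact p_const _ | with_reducible refine p_fst ?_ | with_reducible refine p_snd ?_ | with_reducible refine p_pair ?_ ?_))) (by repeat (first | with_reducible exact p_id | with_reducible exact p_const _ | with_reducible refine p_fst ?_ | with_reducible refine p_snd ?_ | with_reducible refine p_pair ?_ ?_))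
      · have h4 : PrimrecPred fun v : (((B × List ℕ) × ℕ) × List Bool) × ℕ =>
            D ((v.1.1.1.2, v.1.2.take v.2), v.1.1.2) := by
          refine hD.comp ?_
          refine Primrec.pair (Primrec.pair (by repeat (first | with_reducible exact p_id | with_reducible exact p_const _ | with_reducible refine p_fst ?_ | with_reducible refine p_snd ?_ | with_reducible refine p_pair ?_ ?_)) ?_) (by repeat (first | with_reducible exact p_id | with_reducible exact p_const _ | with_reducible refine p_fst ?_ | with_reducible refine p_snd ?_ | with_reducible refine p_pair ?_ ?_))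
          exact Primrec.list_take.comp (by repeat (first | with_reducible exact p_id | with_reducible exact p_const _ | with_reducible refine p_fst ?_ | with_reducible refine p_snd ?_ | with_reducible refine p_pair ?_ ?_)) (by repeat (first | with_reducible exact p_id | with_reducible exact p_const _ | with_reducible refine p_fst ?_ | with_reducible refine p_snd ?_ | with_reducible refine p_pair ?_ ?_))
        exact pp_bex_le h4 (by repeat (first | with_reducible exact p_id | with_reducible exact p_const _ | with_reducible refine p_fst ?_ | with_reducible refine p_snd ?_ | with_reducible refine p_pair ?_ ?_))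
    exact pp_ball h3 (strs_prim.comp (Primrec.nat_add.comp (by repeat (first | with_reducible exact p_id | with_reducible exact p_const _ | with_reducible refine p_fst ?_ | with_reducible refine p_snd ?_ | with_reducible refine p_pair ?_ ?_)) (by repeat (first | with_reducible exact p_id | with_reducible exact p_const _ | with_reducible refine p_fst ?_ | with_reducible refine p_snd ?_ | with_reducible refine p_pair ?_ ?_))))
  · rintro ⟨b, l⟩
    simp only
    constructor
    · intro h
      obtain ⟨N0, hN0⟩ := cpt (fun k τ => (b.1 ≤ k ∧ ¬ τ.take b.1 ∈ b.2) ∨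
          ∃ j, j ≤ k ∧ D ((l, τ.take j), k)) (fun x => by
        by_cases hx : x ∈ C b
        · obtain ⟨e, he, k, hk⟩ := h x hx
          obtain ⟨n, hn⟩ := (h1 (l, pre x k)).1 ⟨e, he, hk⟩
          refine ⟨max k n, Or.inr ⟨k, le_max_left _ _, ?_⟩⟩
          rw [pre_take_le _ (le_max_left _ _)]
          exact hmono _ _ _ (le_max_right _ _) hn
        · exact ⟨b.1, Or.inl ⟨le_rfl, by rwa [mem_C_take _ _ le_rfl]⟩⟩)
      refine ⟨N0, fun τ hτ => ?_⟩
      rw [mem_strs] at hτ
      obtain ⟨k, hk, ⟨hk1, hk2⟩ | ⟨j, hj, hj2⟩⟩ := hN0 (ext τ)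
      · left
        rw [mem_C_take _ _ hk1, ext_mem_C _ _ (by omega)] at hk2
        exact hk2
      · right
        refine ⟨j, by omega, ?_⟩
        rw [pre_take_le _ hj, ← pre_take_le (ext τ) (by omega : j ≤ τ.length), pre_ext] at hj2
        exact hmono _ _ _ hk hj2
    · rintro ⟨N, hN⟩ x hx
      obtain h | ⟨k, hk, hk2⟩ := hN (pre x (b.1 + N)) (pre_mem_strs _ _)
      · rw [mem_C_take _ _ (Nat.le_add_right _ _)] at h
        exact (h hx).elim
      · rw [pre_take_le _ (by omega)] at hk2
        obtain ⟨e, he, he2⟩ := (h1 _).2 ⟨_, hk2⟩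
        exact ⟨e, he, k, he2⟩

theorem S1_le : S1 fun z : B × ℕ => cc z.1 ≤ oc z.2 := by
  refine (S1_sub.comp (f := fun z : B × ℕ => (z.1, [z.2]))
    (Primrec.pair (by repeat (first | with_reducible exact p_id | with_reducible exact p_const _ | with_reducible refine p_fst ?_ | with_reducible refine p_snd ?_ | with_reducible refine p_pair ?_ ?_)) (Primrec.list_cons.comp (by repeat (first | with_reducible exact p_id | with_reducible exact p_const _ | with_reducible refine p_fst ?_ | with_reducible refine p_snd ?_ | with_reducible refine p_pair ?_ ?_)) (Primrec.const [])))).of_eq ?_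
  intro z
  rw [L1_le]
  simp only [List.mem_singleton, exists_eq_left]
  rfl

theorem S1_le3 : S1 fun z : B × ℕ × ℕ × ℕ => cc z.1 ≤ oc z.2.1 ⊔ oc z.2.2.1 ⊔ oc z.2.2.2 := by
  refine (S1_sub.comp (f := fun z : B × ℕ × ℕ × ℕ => (z.1, [z.2.1, z.2.2.1, z.2.2.2]))
    (Primrec.pair (by repeat (first | with_reducible exact p_id | with_reducible exact p_const _ | with_reducible refine p_fst ?_ | with_reducible refine p_snd ?_ | with_reducible refine p_pair ?_ ?_)) (Primrec.list_cons.comp (by repeat (first | with_reducible exact p_id | with_reducible exact p_const _ | with_reducible refine p_fst ?_ | with_reducible refine p_snd ?_ | with_reducible refine p_pair ?_ ?_)) (Primrec.list_cons.comp (by repeat (first | with_reducible exact p_id | with_reducible exact p_const _ | with_reducible refine p_fst ?_ | with_reducible refine p_snd ?_ | with_reducible refine p_pair ?_ ?_))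
      (Primrec.list_cons.comp (by repeat (first | with_reducible exact p_id | with_reducible exact p_const _ | with_reducible refine p_fst ?_ | with_reducible refine p_snd ?_ | with_reducible refine p_pair ?_ ?_)) (Primrec.const [])))))).of_eq ?_
  intro z
  rw [L1_le]
  refine forall_congr' fun x => imp_congr_right fun _ => ?_
  change _ ↔ x ∈ (O z.2.1 ∪ O z.2.2.1) ∪ O z.2.2.2
  simp only [List.mem_cons, List.not_mem_nil, or_false, or_and_right, exists_or, exists_eq_left,
    Set.mem_union, or_assoc]

theorem S1_meet : S1 fun z : ℕ × ℕ => ¬ Disjoint (oc z.1) (oc z.2) := by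
  have h1 : S1 fun v : ((ℕ × ℕ) × List Bool) =>
      (∃ k, Un0 v.1.1 (Encodable.encode (v.2.take k))) ∧
      (∃ k, Un0 v.1.2 (Encodable.encode (v.2.take k))) := by
    refine S1.and ?_ ?_
    · have h2 : S1 fun w : ((ℕ × ℕ) × List Bool) × ℕ => Un0 w.1.1.1 (Encodable.encode (w.1.2.take w.2)) :=
        S1_UnE.comp (f := fun w : ((ℕ × ℕ) × List Bool) × ℕ => (w.1.1.1, w.1.2.take w.2))
          (Primrec.pair (by repeat (first | with_reducible exact p_id | with_reducible exact p_const _ | with_reducible refine p_fst ?_ | with_reducible refine p_snd ?_ | with_reducible refine p_pair ?_ ?_)) (Primrec.list_take.comp (by repeat (first | with_reducible exact p_id | with_reducible exact p_const _ | with_reducible refine p_fst ?_ | with_reducible refine p_snd ?_ | with_reducible refine p_pair ?_ ?_)) (by repeat (first | with_reducible exact p_id | with_reducible exact p_const _ | with_reducible refine p_fst ?_ | with_reducible refine p_snd ?_ | with_reducible refine p_pair ?_ ?_))))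
      exact h2.ex0
    · have h2 : S1 fun w : ((ℕ × ℕ) × List Bool) × ℕ => Un0 w.1.1.2 (Encodable.encode (w.1.2.take w.2)) :=
        S1_UnE.comp (f := fun w : ((ℕ × ℕ) × List Bool) × ℕ => (w.1.1.2, w.1.2.take w.2))
          (Primrec.pair (by repeat (first | with_reducible exact p_id | with_reducible exact p_const _ | with_reducible refine p_fst ?_ | with_reducible refine p_snd ?_ | with_reducible refine p_pair ?_ ?_)) (Primrec.list_take.comp (by repeat (first | with_reducible exact p_id | with_reducible exact p_const _ | with_reducible refine p_fst ?_ | with_reducible refine p_snd ?_ | with_reducible refine p_pair ?_ ?_)) (by repeat (first | with_reducible exact p_id | with_reducible exact p_const _ | with_reducible refine p_fst ?_ | with_reducible refine p_snd ?_ | with_reducible refine p_pair ?_ ?_))))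
      exact h2.ex0
  refine h1.ex.of_eq ?_
  rintro ⟨d, e⟩
  rw [L1_disj]
  push Not
  constructor
  · rintro ⟨τ, ⟨j, hj⟩, ⟨k, hk⟩⟩
    simp only at hj hk
    rw [← pre_ext τ, pre_take] at hj hk
    exact ⟨ext τ, ⟨_, hj⟩, ⟨_, hk⟩⟩
  · rintro ⟨x, ⟨j, hj⟩, ⟨k, hk⟩⟩
    refine ⟨pre x (max j k), ⟨j, ?_⟩, ⟨k, ?_⟩⟩
    · simp only
      rw [pre_take_le _ (le_max_left _ _)]
      exact hj
    · simp only
      rw [pre_take_le _ (le_max_right _ _)]
      exact hk

theorem all_compl {P : L1 → Prop} : (∀ d, IsComplemented d → P d) ↔ ∀ b, P (cc b) := by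
  constructor
  · intro h b
    exact h _ (cc_compl b)
  · intro h d hd
    obtain ⟨b, rfl⟩ := cc_surj d hd
    exact h b

theorem ex_compl {P : L1 → Prop} : (∃ d, IsComplemented d ∧ P d) ↔ ∃ b, P (cc b) := by
  constructor
  · rintro ⟨d, hd, h⟩
    obtain ⟨b, rfl⟩ := cc_surj d hd
    exact ⟨b, h⟩
  · rintro ⟨b, h⟩
    exact ⟨_, cc_compl b, h⟩

theorem ex_oc {P : L1 → Prop} : (∃ d, P d) ↔ ∃ e, P (oc e) := by
  constructor
  · rintro ⟨d, h⟩
    obtain ⟨b, rfl⟩ := oc_surj d
    exact ⟨b, h⟩
  · rintro ⟨b, h⟩
    exact ⟨_, h⟩

end Pool.Agent.Helper49.Pi01
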