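import Pool.Agent.Helper49.Pi01.L1

set_option autoImplicit false

namespace Pool.Agent.Helper49.Pi01

open Nat.Partrec (Code)

theorem Sg_le {n : ℕ} : Sg n fun z : B × ℕ => cc z.1 ≤ oc z.2 := by
  induction n with
  | zero => exact S1_le
  | succ n ih => exact ih.up

theorem der_oc (v v' : ℕ) : der (oc v) (oc v') ↔ ∀ b : B, cc b ≤ oc v' ∨ ∃ b1 : B, ∃ b2 : B,
    cc b1 ≤ cc b ∧ cc b2 ≤ cc b ∧ Disjoint (cc b1) (cc b2) ∧ ¬ cc b1 ≤ oc v ∧ ¬ cc b2 ≤ oc v := by
  unfold der
  rw [all_compl]
  refine forall_congr' fun b => or_congr_right ?_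
  rw [← ex_compl (P := fun d1 => ∃ b2 : B, d1 ≤ cc b ∧ cc b2 ≤ cc b ∧ Disjoint d1 (cc b2) ∧
    ¬ d1 ≤ oc v ∧ ¬ cc b2 ≤ oc v)]
  refine exists_congr fun d1 => ?_
  constructor
  · rintro ⟨d2, h1, h2, h3⟩
    obtain ⟨b2, rfl⟩ := cc_surj d2 h2
    exact ⟨h1, b2, h3⟩
  · rintro ⟨h1, b2, h3⟩
    exact ⟨cc b2, h1, cc_compl b2, h3⟩

theorem Pg_der : Pg 2 fun z : ℕ × ℕ => der (oc z.1) (oc z.2) := by
  have h1 : Sg 1 fun w : (((ℕ × ℕ) × B) × B) × B =>
      cc w.1.2 ≤ cc w.1.1.2 ∧ cc w.2 ≤ cc w.1.1.2 ∧ Disjoint (cc w.1.2) (cc w.2) ∧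
      ¬ cc w.1.2 ≤ oc w.1.1.1.1 ∧ ¬ cc w.2 ≤ oc w.1.1.1.1 := by
    refine Sg.and ?_ (Sg.and ?_ (Sg.and ?_ (Sg.and ?_ ?_)))
    · exact Sg.prim (pp_CC.comp (f := fun w : (((ℕ × ℕ) × B) × B) × B => (w.1.2, w.1.1.2)) (by repeat (first | with_reducible exact p_id | with_reducible exact p_const _ | with_reducible refine p_fst ?_ | with_reducible refine p_snd ?_ | with_reducible refine p_pair ?_ ?_)))
    · exact Sg.prim (pp_CC.comp (f := fun w : (((ℕ × ℕ) × B) × B) × B => (w.2, w.1.1.2)) (by repeat (first | with_reducible exact p_id | with_reducible exact p_const _ | with_reducible refine p_fst ?_ | with_reducible refine p_snd ?_ | with_reducible refine p_pair ?_ ?_)))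
    · exact Sg.prim (pp_CD.comp (f := fun w : (((ℕ × ℕ) × B) × B) × B => (w.1.2, w.2)) (by repeat (first | with_reducible exact p_id | with_reducible exact p_const _ | with_reducible refine p_fst ?_ | with_reducible refine p_snd ?_ | with_reducible refine p_pair ?_ ?_)))
    · exact Sg.negUp ((Sg_le (n := 0)).comp
        (f := fun w : (((ℕ × ℕ) × B) × B) × B => (w.1.2, w.1.1.1.1)) (by repeat (first | with_reducible exact p_id | with_reducible exact p_const _ | with_reducible refine p_fst ?_ | with_reducible refine p_snd ?_ | with_reducible refine p_pair ?_ ?_)))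
    · exact Sg.negUp ((Sg_le (n := 0)).comp
        (f := fun w : (((ℕ × ℕ) × B) × B) × B => (w.2, w.1.1.1.1)) (by repeat (first | with_reducible exact p_id | with_reducible exact p_const _ | with_reducible refine p_fst ?_ | with_reducible refine p_snd ?_ | with_reducible refine p_pair ?_ ?_)))
  have h2 : Sg 1 fun w : (ℕ × ℕ) × B => cc w.2 ≤ oc w.1.2 ∨ ∃ b1 : B, ∃ b2 : B,
      cc b1 ≤ cc w.2 ∧ cc b2 ≤ cc w.2 ∧ Disjoint (cc b1) (cc b2) ∧
      ¬ cc b1 ≤ oc w.1.1 ∧ ¬ cc b2 ≤ oc w.1.1 :=
    Sg.or ((Sg_le (n := 1)).comp (f := fun w : (ℕ × ℕ) × B => (w.2, w.1.2)) (by repeat (first | with_reducible exact p_id | with_reducible exact p_const _ | with_reducible refine p_fst ?_ | with_reducible refine p_snd ?_ | with_reducible refine p_pair ?_ ?_))) h1.ex.ex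
  have h3 : Pg 2 _ := h2.up'
  refine h3.all.of_eq ?_
  rintro ⟨v, v'⟩
  exact (der_oc v v').symm

theorem LB_cc (v0 vt k : ℕ) (b : B) : LB (oc v0) (oc vt) k (cc b) ↔ ∃ s : List ℕ,
    (∀ i, i < k → der (oc ((v0 :: s).getD i 0)) (oc ((v0 :: s).getD (i + 1) 0))) ∧
    ∀ b' : B, cc b' ≤ cc b → cc b' ≤ oc ((v0 :: s).getD k 0) → cc b' ≤ oc vt := by
  unfold LB
  simp only [all_compl]
  constructor
  · rintro ⟨V, h0, h1, h2⟩
    have h3 : ∀ i, ∃ e, oc e = V i := fun i => oc_surj (V i)
    choose e he using h3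
    have key : ∀ i, i ≤ k → oc ((v0 :: (List.range k).map fun i => e (i + 1)).getD i 0) = V i := by
      intro i hi
      rcases i with _ | i
      · simp [h0]
      · rw [← he (i + 1)]
        congr 1
        rw [List.getD_cons_succ]
        rw [List.getD_eq_getElem _ _ (by simp; omega)]
        simp
    refine ⟨(List.range k).map fun i => e (i + 1), ?_, ?_⟩
    · intro i hi
      rw [key i (by omega), key (i + 1) (by omega)]
      exact h1 i hi
    · rw [key k le_rfl]
      exact h2
  · rintro ⟨s, h1, h2⟩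
    exact ⟨fun i => oc ((v0 :: s).getD i 0), rfl, h1, h2⟩

theorem Sg_LB (v0 vt : ℕ) : Sg 3 fun z : ℕ × B => LB (oc v0) (oc vt) z.1 (cc z.2) := by
  have g1 : Primrec fun w : (((ℕ × B) × List ℕ) × ℕ) => (v0 :: w.1.2).getD w.2 0 :=
    (Primrec.list_getD 0).comp (Primrec.list_cons.comp (by repeat (first | with_reducible exact p_id | with_reducible exact p_const _ | with_reducible refine p_fst ?_ | with_reducible refine p_snd ?_ | with_reducible refine p_pair ?_ ?_)) (by repeat (first | with_reducible exact p_id | with_reducible exact p_const _ | with_reducible refine p_fst ?_ | with_reducible refine p_snd ?_ | with_reducible refine p_pair ?_ ?_))) (by repeat (first | with_reducible exact p_id | with_reducible exact p_const _ | with_reducible refine p_fst ?_ | with_reducible refine p_snd ?_ | with_reducible refine p_pair ?_ ?_))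
  have g2 : Primrec fun w : (((ℕ × B) × List ℕ) × ℕ) => (v0 :: w.1.2).getD (w.2 + 1) 0 :=
    (Primrec.list_getD 0).comp (Primrec.list_cons.comp (by repeat (first | with_reducible exact p_id | with_reducible exact p_const _ | with_reducible refine p_fst ?_ | with_reducible refine p_snd ?_ | with_reducible refine p_pair ?_ ?_)) (by repeat (first | with_reducible exact p_id | with_reducible exact p_const _ | with_reducible refine p_fst ?_ | with_reducible refine p_snd ?_ | with_reducible refine p_pair ?_ ?_)))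
      (Primrec.succ.comp (by repeat (first | with_reducible exact p_id | with_reducible exact p_const _ | with_reducible refine p_fst ?_ | with_reducible refine p_snd ?_ | with_reducible refine p_pair ?_ ?_)))
  have h1 : Pg 2 fun w : ((ℕ × B) × List ℕ) × ℕ =>
      w.2 < w.1.1.1 → der (oc ((v0 :: w.1.2).getD w.2 0)) (oc ((v0 :: w.1.2).getD (w.2 + 1) 0)) := by
    refine Pg.imp (Sg.prim (pp_lt (by repeat (first | with_reducible exact p_id | with_reducible exact p_const _ | with_reducible refine p_fst ?_ | with_reducible refine p_snd ?_ | with_reducible refine p_pair ?_ ?_)) (by repeat (first | with_reducible exact p_id | with_reducible exact p_const _ | with_reducible refine p_fst ?_ | with_reducible refine p_snd ?_ | with_reducible refine p_pair ?_ ?_)))) ?_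
    exact Pg_der.comp (f := fun w : (((ℕ × B) × List ℕ) × ℕ) =>
      ((v0 :: w.1.2).getD w.2 0, (v0 :: w.1.2).getD (w.2 + 1) 0)) (g1.pair g2)
  have g3 : Primrec fun w : (((ℕ × B) × List ℕ) × B) => (v0 :: w.1.2).getD w.1.1.1 0 :=
    (Primrec.list_getD 0).comp (Primrec.list_cons.comp (by repeat (first | with_reducible exact p_id | with_reducible exact p_const _ | with_reducible refine p_fst ?_ | with_reducible refine p_snd ?_ | with_reducible refine p_pair ?_ ?_)) (by repeat (first | with_reducible exact p_id | with_reducible exact p_const _ | with_reducible refine p_fst ?_ | with_reducible refine p_snd ?_ | with_reducible refine p_pair ?_ ?_))) (by repeat (first | with_reducible exact p_id | with_reducible exact p_const _ | with_reducible refine p_fst ?_ | with_reducible refine p_snd ?_ | with_reducible refine p_pair ?_ ?_))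
  have h2 : Pg 2 fun w : ((ℕ × B) × List ℕ) × B =>
      cc w.2 ≤ cc w.1.1.2 → cc w.2 ≤ oc ((v0 :: w.1.2).getD w.1.1.1 0) → cc w.2 ≤ oc vt := by
    refine Pg.imp (Sg.prim (pp_CC.comp (f := fun w : ((ℕ × B) × List ℕ) × B => (w.2, w.1.1.2))
      (by repeat (first | with_reducible exact p_id | with_reducible exact p_const _ | with_reducible refine p_fst ?_ | with_reducible refine p_snd ?_ | with_reducible refine p_pair ?_ ?_)))) (Pg.imp ?_ ?_)
    · exact Sg_le.comp (f := fun w : (((ℕ × B) × List ℕ) × B) =>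
        (w.2, (v0 :: w.1.2).getD w.1.1.1 0)) (Primrec.snd.pair g3)
    · have := (Sg_le (n := 1)).comp (f := fun w : (((ℕ × B) × List ℕ) × B) => (w.2, vt)) (by repeat (first | with_reducible exact p_id | with_reducible exact p_const _ | with_reducible refine p_fst ?_ | with_reducible refine p_snd ?_ | with_reducible refine p_pair ?_ ?_))
      exact this.up'
  have h3 : Sg 3 _ := (Pg.and h1.all h2.all).up'
  refine h3.ex.of_eq ?_
  rintro ⟨k, b⟩
  exact (LB_cc v0 vt k b).symm

theorem Pg_UB (v0 vt : ℕ) : Pg 3 fun z : ℕ × B => UB (oc v0) (oc vt) z.1 (cc z.2) := by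
  have h1 : Pg 3 fun w : (ℕ × B) × B =>
      cc w.2 ≤ cc w.1.2 → LB (oc v0) (oc vt) w.1.1 (cc w.2) → cc w.2 ≤ oc vt := by
    refine Pg.imp (Sg.prim (pp_CC.comp (f := fun w : (ℕ × B) × B => (w.2, w.1.2))
      (by repeat (first | with_reducible exact p_id | with_reducible exact p_const _ | with_reducible refine p_fst ?_ | with_reducible refine p_snd ?_ | with_reducible refine p_pair ?_ ?_)))) (Pg.imp ?_ ?_)
    · exact (Sg_LB v0 vt).comp (f := fun w : (ℕ × B) × B => (w.1.1, w.2)) (by repeat (first | with_reducible exact p_id | with_reducible exact p_const _ | with_reducible refine p_fst ?_ | with_reducible refine p_snd ?_ | with_reducible refine p_pair ?_ ?_))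
    · have := (Sg_le (n := 2)).comp (f := fun w : (ℕ × B) × B => (w.2, vt)) (by repeat (first | with_reducible exact p_id | with_reducible exact p_const _ | with_reducible refine p_fst ?_ | with_reducible refine p_snd ?_ | with_reducible refine p_pair ?_ ?_))
      exact this.up'
  refine h1.all.of_eq ?_
  rintro ⟨k, b⟩
  unfold UB
  simp only [all_compl]

theorem Sg_Jt (vt z : ℕ) : Sg 1 fun b : B => Jt (oc vt) (oc z) (cc b) := by
  have h1 : Sg 1 fun w : B × ℕ => Disjoint (oc w.2) (oc z) ∧ cc w.1 ≤ oc vt ⊔ oc z ⊔ oc w.2 := by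
    refine Sg.and ?_ ?_
    · have : Sg 1 fun w : B × ℕ => ¬ ¬ Disjoint (oc w.2) (oc z) :=
        Sg.negUp (n := 0) (S1_meet.comp (f := fun w : B × ℕ => (w.2, z)) (by repeat (first | with_reducible exact p_id | with_reducible exact p_const _ | with_reducible refine p_fst ?_ | with_reducible refine p_snd ?_ | with_reducible refine p_pair ?_ ?_)))
      exact this.of_eq fun _ => not_not
    · have : Sg 0 fun w : B × ℕ => cc w.1 ≤ oc vt ⊔ oc z ⊔ oc w.2 :=
        S1_le3.comp (f := fun w : B × ℕ => (w.1, vt, z, w.2)) (by repeat (first | with_reducible exact p_id | with_reducible exact p_const _ | with_reducible refine p_fst ?_ | with_reducible refine p_snd ?_ | with_reducible refine p_pair ?_ ?_))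
      exact this.up
  refine h1.ex.of_eq ?_
  intro b
  unfold Jt
  rw [ex_oc]

theorem Pg_Dl (vt t1 t2 u : ℕ) : Pg 3 fun b : B => Dl (oc vt) (oc t1) (oc t2) (oc u) (cc b) := by
  have h1 : Sg 2 fun w : (B × B) × B => cc w.2 ≤ cc w.1.1 ∧ Disjoint (cc w.2) (cc w.1.2) ∧
      Jt (oc vt) (oc t2) (cc w.2) ∧ ¬ Jt (oc vt) (oc u) (cc w.2) := by
    refine Sg.and ?_ (Sg.and ?_ (Sg.and ?_ ?_))
    · exact Sg.prim (pp_CC.comp (f := fun w : (B × B) × B => (w.2, w.1.1)) (by repeat (first | with_reducible exact p_id | with_reducible exact p_const _ | with_reducible refine p_fst ?_ | with_reducible refine p_snd ?_ | with_reducible refine p_pair ?_ ?_)))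
    · exact Sg.prim (pp_CD.comp (f := fun w : (B × B) × B => (w.2, w.1.2)) (by repeat (first | with_reducible exact p_id | with_reducible exact p_const _ | with_reducible refine p_fst ?_ | with_reducible refine p_snd ?_ | with_reducible refine p_pair ?_ ?_)))
    · exact ((Sg_Jt vt t2).comp (f := fun w : (B × B) × B => w.2) (by repeat (first | with_reducible exact p_id | with_reducible exact p_const _ | with_reducible refine p_fst ?_ | with_reducible refine p_snd ?_ | with_reducible refine p_pair ?_ ?_))).up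
    · exact Sg.negUp ((Sg_Jt vt u).comp (f := fun w : (B × B) × B => w.2) (by repeat (first | with_reducible exact p_id | with_reducible exact p_const _ | with_reducible refine p_fst ?_ | with_reducible refine p_snd ?_ | with_reducible refine p_pair ?_ ?_)))
  have h2 : Pg 3 fun w : B × B => cc w.2 ≤ cc w.1 → Jt (oc vt) (oc t1) (cc w.2) →
      ∃ e : B, cc e ≤ cc w.1 ∧ Disjoint (cc e) (cc w.2) ∧
      Jt (oc vt) (oc t2) (cc e) ∧ ¬ Jt (oc vt) (oc u) (cc e) := by
    refine Pg.imp (Sg.prim (pp_CC.comp (f := fun w : B × B => (w.2, w.1)) (by repeat (first | with_reducible exact p_id | with_reducible exact p_const _ | with_reducible refine p_fst ?_ | with_reducible refine p_snd ?_ | with_reducible refine p_pair ?_ ?_))))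
      (Pg.imp ?_ h1.ex.up')
    exact ((Sg_Jt vt t1).comp (f := fun w : B × B => w.2) (by repeat (first | with_reducible exact p_id | with_reducible exact p_const _ | with_reducible refine p_fst ?_ | with_reducible refine p_snd ?_ | with_reducible refine p_pair ?_ ?_))).up.up
  refine h2.all.of_eq ?_
  intro b
  unfold Dl
  simp only [all_compl]
  refine forall_congr' fun d => imp_congr_right fun _ => imp_congr_right fun _ => ?_
  rw [ex_compl]

theorem Sg_Inv (V0 Vt T1 T2 U : L1) : Sg 4 fun k : ℕ => Inv V0 Vt T1 T2 U k := by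
  obtain ⟨v0, rfl⟩ := oc_surj V0
  obtain ⟨vt, rfl⟩ := oc_surj Vt
  obtain ⟨t1, rfl⟩ := oc_surj T1
  obtain ⟨t2, rfl⟩ := oc_surj T2
  obtain ⟨u, rfl⟩ := oc_surj U
  have h1 : Sg 4 fun z : ℕ × B => LB (oc v0) (oc vt) z.1 (cc z.2) ∧
      UB (oc v0) (oc vt) (z.1 + 1) (cc z.2) ∧ Dl (oc vt) (oc t1) (oc t2) (oc u) (cc z.2) := by
    refine Sg.and (Sg_LB v0 vt).up (Sg.and ?_ ?_)
    · exact ((Pg_UB v0 vt).comp (f := fun z : ℕ × B => (z.1 + 1, z.2))
        ((Primrec.succ.comp Primrec.fst).pair Primrec.snd)).up'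
    · exact ((Pg_Dl vt t1 t2 u).comp (f := fun z : ℕ × B => z.2) Primrec.snd).up'
  refine h1.ex.of_eq ?_
  intro k
  unfold Inv
  rw [ex_compl]

end Pool.Agent.Helper49.Pi01
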