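import Pool.Agent.Helper49.Pi01.L1

set_option autoImplicit false

namespace Pool.Agent.Helper49.Pi01

open Nat.Partrec (Code)

/-! ### computable unions of cylinders -/

theorem pre_getD (x : X) {n i : ℕ} (h : i < n) : (pre x n).getD i false = x i := by
  rw [List.getD_eq_getElem?_getD, pre_getElem? x n i h, Option.getD_some]

theorem IsO_cyl {α : Type} [Primcodable α] [Inhabited α] {q : α → Prop} (hq : S1 q)
    {g : α → ℕ} (hg : Primrec g) {w : α × ℕ → Prop} (hw : PrimrecPred w) :
    IsO {x : X | ∃ a, q a ∧ ∀ j, j < g a → (x j = true ↔ w (a, j))} := by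
  have h1 : PrimrecPred fun z : List Bool × α =>
      ∀ j ∈ List.range (g z.2), (z.1.getD j false = true ∧ w (z.2, j)) ∨
        (¬ z.1.getD j false = true ∧ ¬ w (z.2, j)) := by
    have h2 : PrimrecPred fun z : (List Bool × α) × ℕ => z.1.1.getD z.2 false = true :=
      pp_eq ((Primrec.list_getD false).comp (by repeat (first | with_reducible exact p_id | with_reducible exact p_const _ | with_reducible refine p_fst ?_ | with_reducible refine p_snd ?_ | with_reducible refine p_pair ?_ ?_)) (by repeat (first | with_reducible exact p_id | with_reducible exact p_const _ | with_reducible refine p_fst ?_ | with_reducible refine p_snd ?_ | with_reducible refine p_pair ?_ ?_))) (by repeat (first | with_reducible exact p_id | with_reducible exact p_const _ | with_reducible refine p_fst ?_ | with_reducible refine p_snd ?_ | with_reducible refine p_pair ?_ ?_))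
    have h3 : PrimrecPred fun z : (List Bool × α) × ℕ => w (z.1.2, z.2) :=
      hw.comp (f := fun z : (List Bool × α) × ℕ => (z.1.2, z.2)) (by repeat (first | with_reducible exact p_id | with_reducible exact p_const _ | with_reducible refine p_fst ?_ | with_reducible refine p_snd ?_ | with_reducible refine p_pair ?_ ?_))
    have h4 : PrimrecPred fun z : (List Bool × α) × ℕ =>
      (z.1.1.getD z.2 false = true ∧ w (z.1.2, z.2)) ∨
        (¬ z.1.1.getD z.2 false = true ∧ ¬ w (z.1.2, z.2)) :=
      (h2.and h3).or (h2.not.and h3.not)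
    exact pp_ball h4 (Primrec.list_range.comp (hg.comp (by repeat (first | with_reducible exact p_id | with_reducible exact p_const _ | with_reducible refine p_fst ?_ | with_reducible refine p_snd ?_ | with_reducible refine p_pair ?_ ?_))))
  have h5 : S1 fun z : List Bool × α => q z.2 ∧ (g z.2 ≤ z.1.length ∧
      ∀ j ∈ List.range (g z.2), (z.1.getD j false = true ∧ w (z.2, j)) ∨
        (¬ z.1.getD j false = true ∧ ¬ w (z.2, j))) :=
    S1.and (hq.comp (by repeat (first | with_reducible exact p_id | with_reducible exact p_const _ | with_reducible refine p_fst ?_ | with_reducible refine p_snd ?_ | with_reducible refine p_pair ?_ ?_))) (S1.and (S1.prim (pp_le (hg.comp (by repeat (first | with_reducible exact p_id | with_reducible exact p_const _ | with_reducible refine p_fst ?_ | with_reducible refine p_snd ?_ | with_reducible refine p_pair ?_ ?_)))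
      (Primrec.list_length.comp (by repeat (first | with_reducible exact p_id | with_reducible exact p_const _ | with_reducible refine p_fst ?_ | with_reducible refine p_snd ?_ | with_reducible refine p_pair ?_ ?_))))) (S1.prim h1))
  refine ⟨_, h5.ex, fun x => ?_⟩
  constructor
  · rintro ⟨a, ha, h⟩
    refine ⟨g a, a, ha, by rw [pre_length], fun j hj => ?_⟩
    rw [List.mem_range] at hj
    simp only
    rw [pre_getD x hj]
    have := h j hj
    tauto
  · rintro ⟨k, a, ha, h1, h2⟩
    rw [pre_length] at h1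
    change g a ≤ k at h1
    refine ⟨a, ha, fun j hj => ?_⟩
    have := h2 j (List.mem_range.2 hj)
    simp only at this
    rw [pre_getD x (by omega : j < k)] at this
    tauto

/-- first true at position n -/
def FT (x : X) (n : ℕ) : Prop := ∀ j, j < n + 1 → (x j = true ↔ j = n)

theorem FT.uniq {x : X} {m n : ℕ} (h1 : FT x m) (h2 : FT x n) : m = n := by
  rcases lt_trichotomy m n with h | h | h
  · have := (h2 m (by omega)).1 ((h1 m (by omega)).2 rfl)
    omega
  · exact h
  · have := (h1 n (by omega)).1 ((h2 n (by omega)).2 rfl)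
    omega

theorem FT.ne_oo {x : X} {n : ℕ} (h : FT x n) : x ≠ oo :=
  (ne_oo_iff x).2 ⟨n, (h n (by omega)).2 rfl⟩

theorem exists_FT {x : X} (h : x ≠ oo) : ∃ n, FT x n := by
  classical
  have h1 := (ne_oo_iff x).1 h
  refine ⟨Nat.find h1, fun j hj => ⟨fun h2 => ?_, fun h2 => ?_⟩⟩
  · have := Nat.find_min' h1 h2
    omega
  · rw [h2]; exact Nat.find_spec h1

/-- union of fibres -/
def Fib (R : ℕ → Prop) : Set X := {x | ∃ n, R n ∧ FT x n}

theorem IsO_Fib {R : ℕ → Prop} (hR : S1 R) : IsO (Fib R) :=
  IsO_cyl (g := fun n => n + 1) (w := fun z => z.2 = z.1) hR Primrec.succ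
    (pp_eq (by repeat (first | with_reducible exact p_id | with_reducible exact p_const _ | with_reducible refine p_fst ?_ | with_reducible refine p_snd ?_ | with_reducible refine p_pair ?_ ?_)) (by repeat (first | with_reducible exact p_id | with_reducible exact p_const _ | with_reducible refine p_fst ?_ | with_reducible refine p_snd ?_ | with_reducible refine p_pair ?_ ?_)))

theorem oo_not_Fib (R : ℕ → Prop) : oo ∉ Fib R := by
  rintro ⟨n, _, h⟩
  exact h.ne_oo rfl

def fib (R : ℕ → Prop) (hR : S1 R) : L2 := ⟨Fib R, IsO_Fib hR, oo_not_Fib R⟩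

theorem fib_compl {R : ℕ → Prop} (hR : PrimrecPred R) : IsComplemented (fib R (S1.prim hR)) := by
  rw [L2_compl]
  refine (IsO_Fib (S1.prim hR.not)).congr fun x => ?_
  constructor
  · rintro ⟨h1, h2⟩
    obtain ⟨n, hn⟩ := exists_FT h1
    exact ⟨n, fun h => h2 ⟨n, h, hn⟩, hn⟩
  · rintro ⟨n, h1, h2⟩
    refine ⟨h2.ne_oo, ?_⟩
    rintro ⟨m, hm, hm2⟩
    rw [h2.uniq hm2] at h1
    exact h1 hm

theorem inf_compl {a b : L2} (ha : IsComplemented a) (hb : IsComplemented b) :
    IsComplemented (a ⊓ b) := by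
  rw [L2_compl] at *
  refine (ha.union hb).congr fun x => ?_
  change (x ≠ oo ∧ ¬ (x ∈ a.1 ∧ x ∈ b.1)) ↔ ((x ≠ oo ∧ x ∉ a.1) ∨ (x ≠ oo ∧ x ∉ b.1))
  tauto

/-- small cylinder -/
def Cy (x : X) (m : ℕ) : Set X := {y | ∀ j, j < m → y j = x j}

theorem mem_Cy_self (x : X) (m : ℕ) : x ∈ Cy x m := fun _ _ => rfl

theorem IsO_Cy (x : X) (m : ℕ) : IsO (Cy x m) := by
  refine ⟨fun τ => m ≤ τ.length ∧ τ.take m = pre x m, S1.prim (PrimrecPred.and ?_ ?_), fun y => ?_⟩
  · exact pp_le (Primrec.const _) Primrec.list_length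
  · exact pp_eq (Primrec.list_take.comp (Primrec.const _) Primrec.id) (Primrec.const _)
  · constructor
    · intro h
      refine ⟨m, by rw [pre_length], ?_⟩
      rw [pre_take_le _ le_rfl, pre_eq_iff]
      exact h
    · rintro ⟨k, hk, h⟩
      rw [pre_length] at hk
      rw [pre_take_le _ hk, pre_eq_iff] at h
      exact h

theorem IsO_Cy' (x : X) (m : ℕ) : IsO {y | y ∉ Cy x m} := by
  refine ⟨fun τ => m ≤ τ.length ∧ ¬ τ.take m = pre x m, S1.prim (PrimrecPred.and ?_ ?_), fun y => ?_⟩
  · exact pp_le (Primrec.const _) Primrec.list_length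
  · exact (pp_eq (Primrec.list_take.comp (Primrec.const _) Primrec.id) (Primrec.const _)).not
  · constructor
    · intro h
      refine ⟨m, by rw [pre_length], ?_⟩
      rw [pre_take_le _ le_rfl, pre_eq_iff]
      exact h
    · rintro ⟨k, hk, h⟩
      rw [pre_length] at hk
      rw [pre_take_le _ hk, pre_eq_iff] at h
      exact h

def cy (x : X) (m n : ℕ) (h : FT x n) (hm : n < m) : L2 :=
  ⟨Cy x m, IsO_Cy x m, fun h1 => by
    have h2 : oo n = x n := h1 n hm
    rw [(h n (by omega)).2 rfl] at h2
    simp [oo] at h2⟩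

theorem cy_compl (x : X) (m n : ℕ) (h : FT x n) (hm : n < m) : IsComplemented (cy x m n h hm) := by
  rw [L2_compl]
  refine (IsO_compl_oo.inter (IsO_Cy' x m)).congr fun y => Iff.rfl

theorem Cy_FT {x y : X} {m n : ℕ} (h : FT x n) (hm : n < m) (hy : y ∈ Cy x m) : FT y n := by
  intro j hj
  rw [hy j (by omega)]
  exact h j hj

theorem Cy_anti {x : X} {m n : ℕ} (h : m ≤ n) : Cy x n ⊆ Cy x m :=
  fun _ hy j hj => hy j (by omega)

theorem open_Cy {W : Set X} (h : IsO W) {x : X} (hx : x ∈ W) (n : ℕ) :
    ∃ m, n < m ∧ Cy x m ⊆ W := by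
  obtain ⟨k, hk⟩ := h.open_at hx
  refine ⟨max k (n + 1), by omega, fun y hy => hk y ((pre_eq_iff _ _ _).2 fun i hi => ?_)⟩
  exact hy i (by omega)

/-! ### counting -/

def cnt (τ : List Bool) : ℕ := (τ.filter fun b => b = true).length

theorem cnt_prim : Primrec cnt := by
  have h : PrimrecPred fun b : Bool => b = true := pp_eq Primrec.id (Primrec.const true)
  exact Primrec.list_length.comp (Primrec.listFilter h)

def tc (x : X) (k : ℕ) : ℕ := cnt (pre x k)

theorem tc_zero (x : X) : tc x 0 = 0 := rfl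

theorem tc_succ (x : X) (k : ℕ) : tc x (k + 1) = tc x k + (if x k = true then 1 else 0) := by
  unfold tc cnt pre
  rw [List.range_succ, List.map_append, List.filter_append, List.length_append]
  congr 1
  by_cases h : x k = true <;> simp [h]

theorem tc_mono (x : X) : Monotone (tc x) := by
  refine monotone_nat_of_le_succ fun k => ?_
  rw [tc_succ]
  omega

theorem tc_congr {x y : X} {k : ℕ} (h : ∀ j, j < k → x j = y j) : tc x k = tc y k := by
  unfold tc
  rw [(pre_eq_iff x y k).2 h]

theorem tc_FT_le {x : X} {n k : ℕ} (h : FT x n) (hk : k ≤ n) : tc x k = 0 := by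
  induction k with
  | zero => rfl
  | succ k ih =>
    rw [tc_succ, ih (by omega)]
    have : ¬ x k = true := fun h1 => by
      have := (h k (by omega)).1 h1
      omega
    simp [this]

theorem tc_FT_succ {x : X} {n : ℕ} (h : FT x n) : tc x (n + 1) = 1 := by
  rw [tc_succ, tc_FT_le h le_rfl, if_pos ((h n (by omega)).2 rfl)]

theorem ev_or (x : X) : (∃ K, ∀ m, K ≤ m → x m = false) ∨ ∀ b, ∃ k, b ≤ tc x k := by
  by_cases h : ∃ K, ∀ m, K ≤ m → x m = false
  · exact Or.inl h
  · right
    push Not at h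
    intro b
    induction b with
    | zero => exact ⟨0, Nat.zero_le _⟩
    | succ b ih =>
      obtain ⟨k, hk⟩ := ih
      obtain ⟨m, hm1, hm2⟩ := h k
      refine ⟨m + 1, ?_⟩
      have := tc_mono x hm1
      rw [tc_succ, if_pos (by simpa using hm2)]
      omega

/-! ### the points -/

def pt (n : ℕ) : X := fun i => decide (i = n)

theorem pt_true (n i : ℕ) : pt n i = true ↔ i = n := by simp [pt]

theorem FT_pt (n : ℕ) : FT (pt n) n := fun j _ => pt_true n j

theorem tc_pt_le (n k : ℕ) : tc (pt n) k ≤ 1 := by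
  rcases le_or_gt k n with h | h
  · rw [tc_FT_le (FT_pt n) h]; omega
  · induction k, h using Nat.le_induction with
    | base => exact (tc_FT_succ (FT_pt n)).le
    | succ k hk ih =>
      rw [tc_succ]
      have : ¬ pt n k = true := by rw [pt_true]; omega
      simpa [this] using ih

theorem eq_pt_or {x : X} {n : ℕ} (h : FT x n) : x = pt n ∨ ∃ k, 2 ≤ tc x k := by
  by_cases h1 : ∃ m, n < m ∧ x m = true
  · right
    obtain ⟨m, hm, hm2⟩ := h1
    refine ⟨m + 1, ?_⟩
    rw [tc_succ, if_pos hm2]
    have := tc_mono x (show n + 1 ≤ m from hm)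
    rw [tc_FT_succ h] at this
    omega
  · left
    push Not at h1
    funext j
    rw [Bool.eq_iff_iff, pt_true]
    rcases Nat.lt_or_ge j (n + 1) with hj | hj
    · exact h j hj
    · have := h1 j (by omega)
      constructor
      · intro h2; exact (this h2).elim
      · intro h2; omega

/-! ### the sets V -/

section V
variable (lab : ℕ → ℕ)

/-- the certificate sets -/
def VV (i : ℕ) : Set X := {x | ∃ n, FT x n ∧ ∃ k, n < k ∧ lab n + 1 < tc x k + i}

theorem idxOf_pre {x : X} {n k : ℕ} (h : FT x n) (hk : n < k) : (pre x k).idxOf true = n := by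
  have h1 : pre x k = pre x n ++ true :: (pre x k).drop (n + 1) := by
    conv_lhs => rw [← List.take_append_drop n (pre x k)]
    rw [pre_take_le x hk.le]
    congr 1
    rw [List.drop_eq_getElem_cons (by rw [pre_length]; exact hk)]
    congr 1
    simp only [pre, List.getElem_map, List.getElem_range]
    exact (h n (by omega)).2 rfl
  rw [h1, List.idxOf_append_of_notMem, pre_length]
  · simp
  · rw [mem_pre_iff]
    rintro ⟨i, hi, hi2⟩
    have := (h i (by omega)).1 hi2
    omega

theorem IsO_VV {lab : ℕ → ℕ} (hlab : Primrec lab) (i : ℕ) : IsO (VV lab i) := by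
  refine ⟨fun τ => τ.idxOf true < τ.length ∧ lab (τ.idxOf true) + 1 < cnt τ + i,
    S1.prim (PrimrecPred.and ?_ ?_), fun x => ?_⟩
  · exact pp_lt (Primrec.list_idxOf.comp (Primrec.const true) Primrec.id) Primrec.list_length
  · refine pp_lt (Primrec.succ.comp (hlab.comp
      (Primrec.list_idxOf.comp (Primrec.const true) Primrec.id))) ?_
    exact Primrec.nat_add.comp cnt_prim (Primrec.const i)
  · constructor
    · rintro ⟨n, hn, k, hk, h⟩
      refine ⟨k, ?_, ?_⟩
      · rw [idxOf_pre hn hk, pre_length]; exact hk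
      · rw [idxOf_pre hn hk]; exact h
    · rintro ⟨k, h1, h2⟩
      rw [List.idxOf_lt_length_iff, mem_pre_iff] at h1
      obtain ⟨j, hj, hj2⟩ := h1
      obtain ⟨n, hn⟩ := exists_FT ((ne_oo_iff x).2 ⟨j, hj2⟩)
      have hnj : n ≤ j := by
        by_contra hcon
        have := (hn j (by omega)).1 hj2
        omega
      rw [idxOf_pre hn (by omega)] at h2
      exact ⟨n, hn, k, by omega, h2⟩

theorem oo_not_VV (i : ℕ) : oo ∉ VV lab i := by
  rintro ⟨n, h, _⟩
  exact h.ne_oo rfl

def vv {lab : ℕ → ℕ} (hlab : Primrec lab) (i : ℕ) : L2 := ⟨VV lab i, IsO_VV hlab i, oo_not_VV lab i⟩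

end V

def VT : Set X := {x | ∃ k, 2 ≤ tc x k}

theorem IsO_VT : IsO VT :=
  ⟨fun τ => 2 ≤ cnt τ, S1.prim (pp_le (Primrec.const 2) cnt_prim), fun _ => Iff.rfl⟩

theorem oo_not_VT : oo ∉ VT := by
  rintro ⟨k, hk⟩
  have : tc oo k = 0 := by
    induction k with
    | zero => rfl
    | succ k ih =>
      have h2 : ¬ oo k = true := by simp [oo]
      have h3 : 2 ≤ tc oo k ∨ ¬ 2 ≤ tc oo k := em _
      rw [tc_succ, if_neg h2]
      rw [tc_succ, if_neg h2] at hk
      exact ih hk
  omega

def vt : L2 := ⟨VT, IsO_VT, oo_not_VT⟩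

theorem pt_not_VT (n : ℕ) : pt n ∉ VT := by
  rintro ⟨k, hk⟩
  have := tc_pt_le n k
  omega

theorem mem_or {c : L2} {x : X} (h : x ∈ c.1) : (∃ n, x = pt n) ∨ x ∈ VT := by
  have h1 : x ≠ oo := by rintro rfl; exact c.2.2 h
  obtain ⟨n, hn⟩ := exists_FT h1
  rcases eq_pt_or hn with h2 | h2
  · exact Or.inl ⟨n, h2⟩
  · exact Or.inr h2

end Pool.Agent.Helper49.Pi01
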