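import Pool.Agent.Helper49.Pi01.L2

set_option autoImplicit false

namespace Pool.Agent.Helper49.Pi01

open Nat.Partrec (Code)

/-- add one true -/
def add1 (x : X) (s : ℕ) : X := fun j => if j = s then true else x j

theorem add1_tc (x : X) (s k : ℕ) : tc (add1 x s) k ≤ tc x k + 1 := by
  have : tc (add1 x s) k ≤ tc x k + (if s < k then 1 else 0) := by
    induction k with
    | zero => simp [tc_zero]
    | succ k ih =>
      rw [tc_succ, tc_succ]
      by_cases hks : k = s
      · subst hks
        rw [if_neg (lt_irrefl k)] at ih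
        rw [if_pos (Nat.lt_succ_self k)]
        split_ifs <;> omega
      · have h1 : add1 x s k = x k := by simp [add1, hks]
        rw [h1]
        split_ifs at ih ⊢ <;> omega
  split_ifs at this <;> omega

section

variable {lab : ℕ → ℕ} (hlab : Primrec lab)

theorem der_sound (i : ℕ) : der (vv hlab i) (vv hlab (i + 1)) := by
  intro d hd
  by_cases h : d ≤ vv hlab (i + 1)
  · exact Or.inl h
  right
  rw [L2_le] at h
  push Not at h
  obtain ⟨x, hxd, hxV⟩ := h
  have hxo : x ≠ oo := by rintro rfl; exact d.2.2 hxd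
  obtain ⟨n, hn⟩ := exists_FT hxo
  have hb : ∀ k, n < k → tc x k + i + 1 ≤ lab n + 1 := by
    intro k hk
    by_contra hcon
    exact hxV ⟨n, hn, k, hk, by omega⟩
  obtain ⟨K, hK⟩ | h2 := ev_or x
  swap
  · obtain ⟨k, hk⟩ := h2 (lab n + 2)
    have h3 := hb (max k (n + 1)) (by omega)
    have h4 := tc_mono x (le_max_left k (n + 1))
    omega
  obtain ⟨m0, hm0, hm1⟩ := open_Cy d.2.1 hxd n
  obtain ⟨N, hNK, hNm⟩ : ∃ N, K ≤ N ∧ m0 ≤ N := ⟨max K m0, le_max_left _ _, le_max_right _ _⟩
  have hy : ∀ s, N ≤ s → add1 x s ∈ Cy x N := by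
    intro s hs j hj
    have : j ≠ s := by omega
    simp [add1, this]
  have hyFT : ∀ s, N ≤ s → FT (add1 x s) n := fun s hs => Cy_FT hn (by omega) (hy s hs)
  have hyV : ∀ s, N ≤ s → add1 x s ∉ VV lab i := by
    rintro s hs ⟨n', hn', k, hk, h5⟩
    have := (hyFT s hs).uniq hn'
    subst this
    have h6 := add1_tc x s k
    have h7 := hb k hk
    omega
  have hsub : ∀ s, N ≤ s → ∀ z, z ∈ Cy (add1 x s) (N + 2) → z ∈ d.1 := by
    intro s hs z hz
    apply hm1
    apply Cy_anti hNm
    intro j hj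
    rw [hz j (by omega)]
    exact hy s hs j hj
  refine ⟨cy (add1 x N) (N + 2) n (hyFT N le_rfl) (by omega),
    cy (add1 x (N + 1)) (N + 2) n (hyFT (N + 1) (by omega)) (by omega),
    cy_compl _ _ _ _ _, cy_compl _ _ _ _ _, hsub N le_rfl, hsub (N + 1) (by omega), ?_, ?_, ?_⟩
  · rw [L2_disj]
    intro z hz1 hz2
    have e1 : z N = add1 x N N := hz1 N (by omega)
    have e2 : z N = add1 x (N + 1) N := hz2 N (by omega)
    rw [e1] at e2
    simp [add1, hK N hNK] at e2
  · intro h8
    exact hyV N le_rfl (h8 (mem_Cy_self _ _))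
  · intro h8
    exact hyV (N + 1) (by omega) (h8 (mem_Cy_self _ _))

theorem VV_step {i : ℕ} {V V' : L2} (hV : VV lab i ⊆ V.1) (hder : der V V') :
    VV lab (i + 1) ⊆ V'.1 := by
  rintro x ⟨n, hn, k0, hk0, h0⟩
  have claim : ∃ k1, n < k1 ∧ ∀ y, y ∈ Cy x k1 → y ≠ x → y ∈ VV lab i := by
    by_cases h : ∃ k, n < k ∧ lab n + 1 < tc x k + i
    · obtain ⟨k, hk, hk2⟩ := h
      refine ⟨k, hk, fun y hy _ => ⟨n, Cy_FT hn hk hy, k, hk, ?_⟩⟩
      rwa [tc_congr hy]
    · push Not at h
      refine ⟨k0, hk0, fun y hy hne => ?_⟩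
      have h1 := h k0 hk0
      have hx : ∀ m, k0 ≤ m → x m = false := by
        intro m hm
        by_contra hcon
        have h2 := h (m + 1) (by omega)
        rw [tc_succ, if_pos (by simpa using hcon)] at h2
        have h3 := tc_mono x hm
        omega
      obtain ⟨j, hj⟩ : ∃ j, y j ≠ x j := by
        by_contra hcon
        push Not at hcon
        exact hne (funext hcon)
      have hjk : k0 ≤ j := by
        by_contra hcon
        exact hj (hy j (by omega))
      have hyj : y j = true := by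
        rw [hx j hjk] at hj
        simpa using hj
      refine ⟨n, Cy_FT hn hk0 hy, j + 1, by omega, ?_⟩
      rw [tc_succ, if_pos hyj]
      have h4 := tc_mono y hjk
      rw [tc_congr hy] at h4
      omega
  obtain ⟨k1, hk1, hk2⟩ := claim
  rcases hder (cy x k1 n hn hk1) (cy_compl _ _ _ _ _) with h | ⟨d1, d2, _, _, hd1, hd2, hdis, hn1, hn2⟩
  · exact h (mem_Cy_self _ _)
  · exfalso
    have key : ∀ d : L2, d ≤ cy x k1 n hn hk1 → ¬ d ≤ V → x ∈ d.1 := by
      intro d hd hdV
      by_contra hx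
      apply hdV
      intro y hy
      exact hV (hk2 y (hd hy) (by rintro rfl; exact hx hy))
    exact L2_disj.1 hdis x (key d1 hd1 hn1) (key d2 hd2 hn2)

theorem LB_iff (k : ℕ) (c : L2) :
    LB (vv hlab 0) vt k c ↔ ∀ n, pt n ∈ c.1 → k ≤ lab n := by
  constructor
  · rintro ⟨V, h0, h1, h2⟩ n hn
    have hall : ∀ i, i ≤ k → VV lab i ⊆ (V i).1 := by
      intro i
      induction i with
      | zero => intro _; rw [h0]; exact fun x hx => hx
      | succ i ih => intro hi; exact VV_step (ih (by omega)) (h1 i (by omega))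
    by_contra hcon
    have hp : pt n ∈ VV lab k := by
      refine ⟨n, FT_pt n, n + 1, by omega, ?_⟩
      rw [tc_FT_succ (FT_pt n)]
      omega
    obtain ⟨m1, hm1, hm1'⟩ := open_Cy c.2.1 hn n
    obtain ⟨m2, hm2, hm2'⟩ := open_Cy (V k).2.1 (hall k le_rfl hp) n
    have := h2 (cy (pt n) (max m1 m2) n (FT_pt n) (by omega)) (cy_compl _ _ _ _ _)
      (fun x hx => hm1' (Cy_anti (le_max_left _ _) hx))
      (fun x hx => hm2' (Cy_anti (le_max_right _ _) hx))
    exact pt_not_VT n (this (mem_Cy_self _ _))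
  · intro h
    refine ⟨vv hlab, rfl, fun i _ => der_sound hlab i, fun d _ hdc hdV x hx => ?_⟩
    rcases mem_or hx with ⟨n, rfl⟩ | h1
    · exfalso
      obtain ⟨n', hn', m, hm, hlt⟩ := hdV hx
      have := (FT_pt n).uniq hn'
      subst this
      have h3 := h n (hdc hx)
      have h4 := tc_pt_le n m
      omega
    · exact h1

theorem UB_iff (k : ℕ) (c : L2) :
    UB (vv hlab 0) vt k c ↔ ∀ n, pt n ∈ c.1 → lab n < k := by
  constructor
  · intro h n hn
    by_contra hcon
    obtain ⟨m1, hm1, hm1'⟩ := open_Cy c.2.1 hn n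
    have := h (cy (pt n) m1 n (FT_pt n) hm1) (cy_compl _ _ _ _ _) hm1' ((LB_iff hlab k _).2 (by
      intro n' hn'
      have h2 : FT (pt n') n := Cy_FT (FT_pt n) hm1 hn'
      have h3 := h2.uniq (FT_pt n')
      subst h3
      omega))
    exact pt_not_VT n (this (mem_Cy_self _ _))
  · intro h d _ hdc hLB x hx
    rcases mem_or hx with ⟨n, rfl⟩ | h1
    · exfalso
      have h3 := h n (hdc hx)
      have h4 := (LB_iff hlab k d).1 hLB n hx
      omega
    · exact h1

end

/-! ### the sets T -/

/-- second true at distance m -/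
def TT (f : ℕ → ℕ) : Set X :=
  {x | ∃ a : ℕ × ℕ, a.2 < H (f a.1) ∧ ∀ j, j < a.1 + a.2 + 2 → (x j = true ↔ (j = a.1 ∨ j = a.1 + 1 + a.2))}

theorem IsO_TT {f : ℕ → ℕ} (hf : Primrec f) : IsO (TT f) := by
  refine IsO_cyl (α := ℕ × ℕ) (q := fun a => a.2 < H (f a.1)) (g := fun a => a.1 + a.2 + 2)
    (w := fun z => z.2 = z.1.1 ∨ z.2 = z.1.1 + 1 + z.1.2) ?_ ?_ ?_
  · exact S1_H.comp (f := fun a : ℕ × ℕ => (a.2, f a.1)) (Primrec.snd.pair (hf.comp .fst))
  · exact Primrec.succ.comp (Primrec.succ.comp (Primrec.nat_add.comp (by repeat (first | with_reducible exact p_id | with_reducible exact p_const _ | with_reducible refine p_fst ?_ | with_reducible refine p_snd ?_ | with_reducible refine p_pair ?_ ?_)) (by repeat (first | with_reducible exact p_id | with_reducible exact p_const _ | with_reducible refine p_fst ?_ | with_reducible refine p_snd ?_ | with_reducible refine p_pair ?_ ?_))))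
  · refine PrimrecPred.or (pp_eq (by repeat (first | with_reducible exact p_id | with_reducible exact p_const _ | with_reducible refine p_fst ?_ | with_reducible refine p_snd ?_ | with_reducible refine p_pair ?_ ?_)) (by repeat (first | with_reducible exact p_id | with_reducible exact p_const _ | with_reducible refine p_fst ?_ | with_reducible refine p_snd ?_ | with_reducible refine p_pair ?_ ?_))) (pp_eq (by repeat (first | with_reducible exact p_id | with_reducible exact p_const _ | with_reducible refine p_fst ?_ | with_reducible refine p_snd ?_ | with_reducible refine p_pair ?_ ?_)) ?_)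
    exact Primrec.nat_add.comp (Primrec.succ.comp (by repeat (first | with_reducible exact p_id | with_reducible exact p_const _ | with_reducible refine p_fst ?_ | with_reducible refine p_snd ?_ | with_reducible refine p_pair ?_ ?_))) (by repeat (first | with_reducible exact p_id | with_reducible exact p_const _ | with_reducible refine p_fst ?_ | with_reducible refine p_snd ?_ | with_reducible refine p_pair ?_ ?_))

theorem TT_FT {f : ℕ → ℕ} {x : X} (h : x ∈ TT f) :
    ∃ n m, m < H (f n) ∧ FT x n ∧ x (n + 1 + m) = true := by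
  obtain ⟨⟨n, m⟩, h1, h2⟩ := h
  simp only at h1 h2
  refine ⟨n, m, h1, fun j hj => ?_, ?_⟩
  · rw [h2 j (by omega)]
    omega
  · rw [h2 _ (by omega)]
    right; rfl

theorem oo_not_TT (f : ℕ → ℕ) : oo ∉ TT f := by
  intro h
  obtain ⟨n, m, _, h, _⟩ := TT_FT h
  exact h.ne_oo rfl

theorem pt_not_TT (f : ℕ → ℕ) (n : ℕ) : pt n ∉ TT f := by
  intro h
  obtain ⟨n', m, _, h, h2⟩ := TT_FT h
  have := h.uniq (FT_pt n)
  subst this
  rw [pt_true] at h2
  omega

def tt {f : ℕ → ℕ} (hf : Primrec f) : L2 := ⟨TT f, IsO_TT hf, oo_not_TT f⟩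

theorem pre_pt_prim : Primrec fun z : ℕ × ℕ => pre (pt z.1) z.2 := by
  unfold pre pt
  refine Primrec.list_map (Primrec.list_range.comp .snd) ?_
  have h : PrimrecPred fun w : (ℕ × ℕ) × ℕ => w.2 = w.1.1 := pp_eq (by repeat (first | with_reducible exact p_id | with_reducible exact p_const _ | with_reducible refine p_fst ?_ | with_reducible refine p_snd ?_ | with_reducible refine p_pair ?_ ?_)) (by repeat (first | with_reducible exact p_id | with_reducible exact p_const _ | with_reducible refine p_fst ?_ | with_reducible refine p_snd ?_ | with_reducible refine p_pair ?_ ?_))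
  exact h.decide

/-- the key finiteness property -/
theorem fin_Q {f : ℕ → ℕ} (hf : Primrec f) {Q : Set X} (hQ : IsO Q)
    (hdis : ∀ x, x ∈ Q → x ∉ TT f) : {v | ∃ n, f n = v ∧ pt n ∈ Q}.Finite := by
  obtain ⟨p, hp, h1⟩ := hQ
  have hS : S1 fun z : ℕ × ℕ => ∃ n, f n = z.1 ∧ ∃ k, k ≤ n + 1 + z.2 ∧ p (pre (pt n) k) := by
    have h2 : S1 fun w : ((ℕ × ℕ) × ℕ) × ℕ => w.2 ≤ w.1.2 + 1 + w.1.1.2 ∧ p (pre (pt w.1.2) w.2) := by
      refine S1.and (S1.prim (pp_le (by repeat (first | with_reducible exact p_id | with_reducible exact p_const _ | with_reducible refine p_fst ?_ | with_reducible refine p_snd ?_ | with_reducible refine p_pair ?_ ?_)) ?_)) ?_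
      · exact Primrec.nat_add.comp (Primrec.succ.comp (by repeat (first | with_reducible exact p_id | with_reducible exact p_const _ | with_reducible refine p_fst ?_ | with_reducible refine p_snd ?_ | with_reducible refine p_pair ?_ ?_))) (by repeat (first | with_reducible exact p_id | with_reducible exact p_const _ | with_reducible refine p_fst ?_ | with_reducible refine p_snd ?_ | with_reducible refine p_pair ?_ ?_))
      · exact hp.comp (pre_pt_prim.comp (Primrec.pair (by repeat (first | with_reducible exact p_id | with_reducible exact p_const _ | with_reducible refine p_fst ?_ | with_reducible refine p_snd ?_ | with_reducible refine p_pair ?_ ?_)) (by repeat (first | with_reducible exact p_id | with_reducible exact p_const _ | with_reducible refine p_fst ?_ | with_reducible refine p_snd ?_ | with_reducible refine p_pair ?_ ?_))))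
    have h3 : S1 fun w : (ℕ × ℕ) × ℕ => f w.2 = w.1.1 :=
      S1.prim (pp_eq (hf.comp (by repeat (first | with_reducible exact p_id | with_reducible exact p_const _ | with_reducible refine p_fst ?_ | with_reducible refine p_snd ?_ | with_reducible refine p_pair ?_ ?_))) (by repeat (first | with_reducible exact p_id | with_reducible exact p_const _ | with_reducible refine p_fst ?_ | with_reducible refine p_snd ?_ | with_reducible refine p_pair ?_ ?_)))
    exact (h3.and h2.ex0).ex0
  refine (H_dom hS ?_).subset ?_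
  · rintro v m ⟨n, hn, k, hk, hpk⟩
    simp only at hn hk
    by_contra hcon
    push Not at hcon
    let x : X := fun j => decide (j = n ∨ j = n + 1 + m)
    have hx : ∀ j, x j = true ↔ (j = n ∨ j = n + 1 + m) := fun j => by simp [x]
    have hx1 : x ∈ Q := by
      rw [h1]
      refine ⟨k, ?_⟩
      have : pre x k = pre (pt n) k := by
        rw [pre_eq_iff]
        intro i hi
        rw [Bool.eq_iff_iff, hx, pt_true]
        omega
      rwa [this]
    refine hdis x hx1 ⟨(n, m), ?_, fun j _ => hx j⟩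
    simp only [hn]
    exact hcon
  · rintro v ⟨n, hn, hn2⟩
    obtain ⟨k, hk⟩ := (h1 _).1 hn2
    exact ⟨k, n, hn, k, by simp only; omega, hk⟩

/-- the sets Q -/
def QQ (R : ℕ → Prop) (M : ℕ) : Set X := {x | ∃ n, R n ∧ ∀ j, j < n + 1 + M → (x j = true ↔ j = n)}

theorem IsO_QQ {R : ℕ → Prop} (hR : S1 R) (M : ℕ) : IsO (QQ R M) :=
  IsO_cyl (g := fun n => n + 1 + M) (w := fun z => z.2 = z.1) hR
    (Primrec.nat_add.comp Primrec.succ (Primrec.const M)) (pp_eq (by repeat (first | with_reducible exact p_id | with_reducible exact p_const _ | with_reducible refine p_fst ?_ | with_reducible refine p_snd ?_ | with_reducible refine p_pair ?_ ?_)) (by repeat (first | with_reducible exact p_id | with_reducible exact p_const _ | with_reducible refine p_fst ?_ | with_reducible refine p_snd ?_ | with_reducible refine p_pair ?_ ?_)))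

theorem QQ_FT {R : ℕ → Prop} {M : ℕ} {x : X} (h : x ∈ QQ R M) :
    ∃ n, R n ∧ FT x n ∧ ∀ j, n < j → j < n + 1 + M → ¬ x j = true := by
  obtain ⟨n, h1, h2⟩ := h
  refine ⟨n, h1, fun j hj => h2 j (by omega), fun j hj hj2 h3 => ?_⟩
  have := (h2 j hj2).1 h3
  omega

def qq {R : ℕ → Prop} (hR : S1 R) (M : ℕ) : L2 := ⟨QQ R M, IsO_QQ hR M, fun h => by
  obtain ⟨n, _, h, _⟩ := QQ_FT h
  exact h.ne_oo rfl⟩

theorem QQ_disj_TT {R : ℕ → Prop} {M : ℕ} {f : ℕ → ℕ} (hM : ∀ n, R n → H (f n) ≤ M)
    {x : X} (h : x ∈ QQ R M) : x ∉ TT f := by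
  intro h2
  obtain ⟨n, h3, h4, h5⟩ := QQ_FT h
  obtain ⟨n', m, h6, h7, h8⟩ := TT_FT h2
  have := h4.uniq h7
  subst this
  have := hM n h3
  exact h5 (n + 1 + m) (by omega) (by omega) h8

theorem pt_mem_QQ {R : ℕ → Prop} {n : ℕ} (h : R n) (M : ℕ) : pt n ∈ QQ R M :=
  ⟨n, h, fun j _ => pt_true n j⟩

theorem exists_bound (S : Set ℕ) (hS : S.Finite) (g : ℕ → ℕ) : ∃ M, ∀ v, v ∈ S → g v ≤ M := by
  obtain ⟨M, hM⟩ := (hS.image g).bddAbove
  exact ⟨M, fun v hv => hM ⟨v, hv, rfl⟩⟩

theorem pp_fin {α : Type} [Primcodable α] {S : Set ℕ} (hS : S.Finite) {f : α → ℕ} (hf : Primrec f) :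
    PrimrecPred fun a => f a ∈ S := by
  refine (pp_mem (l := fun _ => hS.toFinset.toList) hf (Primrec.const _)).of_eq ?_
  intro a
  simp

theorem Jt_tt {f : ℕ → ℕ} (hf : Primrec f) (c : L2) :
    Jt vt (tt hf) c ↔ {v | ∃ n, f n = v ∧ pt n ∈ c.1}.Finite := by
  constructor
  · rintro ⟨Q, hQ, hc⟩
    rw [L2_disj] at hQ
    refine (fin_Q hf Q.2.1 hQ).subset ?_
    rintro v ⟨n, hn, hn2⟩
    refine ⟨n, hn, ?_⟩
    have : pt n ∈ (VT ∪ TT f) ∪ Q.1 := hc hn2
    rcases this with (h | h) | h
    · exact (pt_not_VT n h).elim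
    · exact (pt_not_TT f n h).elim
    · exact h
  · intro hfin
    obtain ⟨M, hM⟩ := exists_bound _ hfin H
    have hR : S1 fun n => f n ∈ {v | ∃ n, f n = v ∧ pt n ∈ c.1} := S1.prim (pp_fin hfin hf)
    refine ⟨qq hR M, ?_, ?_⟩
    · rw [L2_disj]
      intro x hx
      exact QQ_disj_TT (fun n hn => hM _ hn) hx
    · intro x hx
      rcases mem_or hx with ⟨n, rfl⟩ | h1
      · exact Or.inr (pt_mem_QQ ⟨n, rfl, hx⟩ M)
      · exact Or.inl (Or.inl h1)

end Pool.Agent.Helper49.Pi01
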