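import Pool.Agent.Helper49.Pi01.L2b
import Pool.Agent.Helper49.Pi01.L1Inv

set_option autoImplicit false

namespace Pool.Agent.Helper49.Pi01

open Nat.Partrec (Code)

/-! ### coordinates of a fibre index -/

def fk (n : ℕ) : ℕ := n.unpair.1
def fi (n : ℕ) : ℕ := n.unpair.2.unpair.1
def fj (n : ℕ) : ℕ := n.unpair.2.unpair.2.unpair.1
def fc (n : ℕ) : ℕ := n.unpair.2.unpair.2.unpair.2.unpair.1
def ft (n : ℕ) : ℕ := n.unpair.2.unpair.2.unpair.2.unpair.2
def mk (k i j c t : ℕ) : ℕ := Nat.pair k (Nat.pair i (Nat.pair j (Nat.pair c t)))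
def idx2 (n : ℕ) : ℕ := Nat.pair (fi n) (fj n)
def idx3 (n : ℕ) : ℕ := Nat.pair (idx2 n) (fc n)

theorem fk_mk (k i j c t : ℕ) : fk (mk k i j c t) = k := by simp [fk, mk]
theorem fi_mk (k i j c t : ℕ) : fi (mk k i j c t) = i := by simp [fi, mk]
theorem fj_mk (k i j c t : ℕ) : fj (mk k i j c t) = j := by simp [fj, mk]
theorem fc_mk (k i j c t : ℕ) : fc (mk k i j c t) = c := by simp [fc, mk]
theorem ft_mk (k i j c t : ℕ) : ft (mk k i j c t) = t := by simp [ft, mk]
theorem idx2_mk (k i j c t : ℕ) : idx2 (mk k i j c t) = Nat.pair i j := by simp [idx2, fi_mk, fj_mk]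
theorem idx3_mk (k i j c t : ℕ) : idx3 (mk k i j c t) = Nat.pair (Nat.pair i j) c := by
  simp [idx3, idx2_mk, fc_mk]

theorem mk_eta (n : ℕ) : mk (fk n) (fi n) (fj n) (fc n) (ft n) = n := by
  simp [mk, fk, fi, fj, fc, ft, Nat.pair_unpair]

theorem p_unpair1 {α : Type} [Primcodable α] {f : α → ℕ} (h : Primrec f) :
    Primrec fun a => (f a).unpair.1 := Primrec.fst.comp (Primrec.unpair.comp h)
theorem p_unpair2 {α : Type} [Primcodable α] {f : α → ℕ} (h : Primrec f) :
    Primrec fun a => (f a).unpair.2 := Primrec.snd.comp (Primrec.unpair.comp h)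

theorem fk_prim : Primrec fk := p_unpair1 Primrec.id
theorem fi_prim : Primrec fi := p_unpair1 (p_unpair2 Primrec.id)
theorem fj_prim : Primrec fj := p_unpair1 (p_unpair2 (p_unpair2 Primrec.id))
theorem fc_prim : Primrec fc := p_unpair1 (p_unpair2 (p_unpair2 (p_unpair2 Primrec.id)))
theorem ft_prim : Primrec ft := p_unpair2 (p_unpair2 (p_unpair2 (p_unpair2 Primrec.id)))
theorem idx2_prim : Primrec idx2 := Primrec₂.natPair.comp fi_prim fj_prim
theorem idx3_prim : Primrec idx3 := Primrec₂.natPair.comp idx2_prim fc_prim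

attribute [local irreducible] fk fi fj fc ft mk

/-! ### the target predicate -/

/-- component of a coded sequence -/
def cmp (j a : ℕ) : ℕ := (Denumerable.ofNat (List ℕ) j).getD a 0

theorem cmp_prim {α : Type} [Primcodable α] {f g : α → ℕ} (hf : Primrec f) (hg : Primrec g) :
    Primrec fun a => cmp (f a) (g a) :=
  (Primrec.list_getD 0).comp ((Primrec.ofNat (List ℕ)).comp hf) hg

def rho (k i j c d : ℕ) : Prop :=
  c.unpair.1 ≤ i ∧ Un0 k (Nat.pair (Nat.pair (Nat.pair (Nat.pair k c.unpair.1)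
    (cmp j c.unpair.1)) c.unpair.2) d)

def theta (k i j : ℕ) : Prop := ∃ c, ∀ d, rho k i j c d

theorem target_iff (k : ℕ) : ¬ Un 4 k k ↔ ∀ i0, ∃ i, i0 ≤ i ∧ ∃ j, ¬ theta k i j := by
  have h1 : ¬ Un 4 k k ↔ ∀ a, ∃ b, ¬ ∃ c, ∀ d, Un0 k (Nat.pair (Nat.pair (Nat.pair (Nat.pair k a) b) c) d) := by
    simp only [Un]
    push Not
    rfl
  rw [h1]
  constructor
  · intro h i0
    choose f hf using h
    refine ⟨i0, le_rfl, Encodable.encode ((List.range (i0 + 1)).map f), ?_⟩
    rintro ⟨c, hc⟩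
    have hle := (hc 0).1
    refine hf c.unpair.1 ⟨c.unpair.2, fun d => ?_⟩
    have h2 := (hc d).2
    have h3 : cmp (Encodable.encode ((List.range (i0 + 1)).map f)) c.unpair.1 = f c.unpair.1 := by
      unfold cmp
      rw [Denumerable.ofNat_encode, List.getD_eq_getElem _ _ (by simp; omega)]
      simp
    rwa [h3] at h2
  · intro h a
    obtain ⟨i, hi, j, hj⟩ := h a
    refine ⟨cmp j a, ?_⟩
    rintro ⟨c, hc⟩
    apply hj
    refine ⟨Nat.pair a c, fun d => ?_⟩
    unfold rho
    simp only [Nat.unpair_pair]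
    exact ⟨hi, hc d⟩

/-! ### the set A -/

def AA (n : ℕ) : Prop := ∃ c, c ≤ fc n ∧ ∀ d, d ≤ ft n → rho (fk n) (fi n) (fj n) c d

theorem S1_AA : S1 AA := by
  have h1 : S1 fun w : (ℕ × ℕ) × ℕ => rho (fk w.1.1) (fi w.1.1) (fj w.1.1) w.1.2 w.2 := by
    unfold rho
    have e1 : Primrec fun w : (ℕ × ℕ) × ℕ => w.1.2.unpair.1 := p_unpair1 (by repeat (first | with_reducible exact p_id | with_reducible exact p_const _ | with_reducible refine p_fst ?_ | with_reducible refine p_snd ?_ | with_reducible refine p_pair ?_ ?_))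
    have e2 : Primrec fun w : (ℕ × ℕ) × ℕ => w.1.2.unpair.2 := p_unpair2 (by repeat (first | with_reducible exact p_id | with_reducible exact p_const _ | with_reducible refine p_fst ?_ | with_reducible refine p_snd ?_ | with_reducible refine p_pair ?_ ?_))
    have e3 : Primrec fun w : (ℕ × ℕ) × ℕ => fk w.1.1 := fk_prim.comp (by repeat (first | with_reducible exact p_id | with_reducible exact p_const _ | with_reducible refine p_fst ?_ | with_reducible refine p_snd ?_ | with_reducible refine p_pair ?_ ?_))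
    have e4 : Primrec fun w : (ℕ × ℕ) × ℕ => fi w.1.1 := fi_prim.comp (by repeat (first | with_reducible exact p_id | with_reducible exact p_const _ | with_reducible refine p_fst ?_ | with_reducible refine p_snd ?_ | with_reducible refine p_pair ?_ ?_))
    have e5 : Primrec fun w : (ℕ × ℕ) × ℕ => fj w.1.1 := fj_prim.comp (by repeat (first | with_reducible exact p_id | with_reducible exact p_const _ | with_reducible refine p_fst ?_ | with_reducible refine p_snd ?_ | with_reducible refine p_pair ?_ ?_))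
    refine S1.and (S1.prim (pp_le e1 e4)) ?_
    refine S1_Un0.comp (f := fun w : (ℕ × ℕ) × ℕ => (fk w.1.1,
      Nat.pair (Nat.pair (Nat.pair (Nat.pair (fk w.1.1) w.1.2.unpair.1)
        (cmp (fj w.1.1) w.1.2.unpair.1)) w.1.2.unpair.2) w.2)) (e3.pair ?_)
    exact Primrec₂.natPair.comp (Primrec₂.natPair.comp (Primrec₂.natPair.comp
      (Primrec₂.natPair.comp e3 e1) (cmp_prim e5 e1)) e2) (by repeat (first | with_reducible exact p_id | with_reducible exact p_const _ | with_reducible refine p_fst ?_ | with_reducible refine p_snd ?_ | with_reducible refine p_pair ?_ ?_))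
  have h2 : S1 fun w : ℕ × ℕ => ∀ d, d ≤ ft w.1 → rho (fk w.1) (fi w.1) (fj w.1) w.2 d :=
    h1.ball_le (l := fun w : ℕ × ℕ => ft w.1) (ft_prim.comp (by repeat (first | with_reducible exact p_id | with_reducible exact p_const _ | with_reducible refine p_fst ?_ | with_reducible refine p_snd ?_ | with_reducible refine p_pair ?_ ?_)))
  exact ((S1.prim (pp_le (f := fun w : ℕ × ℕ => w.2) (g := fun w => fc w.1) (by repeat (first | with_reducible exact p_id | with_reducible exact p_const _ | with_reducible refine p_fst ?_ | with_reducible refine p_snd ?_ | with_reducible refine p_pair ?_ ?_))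
    (fc_prim.comp (by repeat (first | with_reducible exact p_id | with_reducible exact p_const _ | with_reducible refine p_fst ?_ | with_reducible refine p_snd ?_ | with_reducible refine p_pair ?_ ?_))))).and h2).ex0

theorem AA_anti {k i j c t t' : ℕ} (h : t ≤ t') (hA : AA (mk k i j c t')) : AA (mk k i j c t) := by
  unfold AA at *
  simp only [fk_mk, fi_mk, fj_mk, fc_mk, ft_mk] at *
  obtain ⟨c', h1, h2⟩ := hA
  exact ⟨c', h1, fun d hd => h2 d (by omega)⟩

theorem AA_of_theta {k i j c0 : ℕ} (h : ∀ d, rho k i j c0 d) {c : ℕ} (hc : c0 ≤ c) (t : ℕ) :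
    AA (mk k i j c t) := by
  unfold AA
  simp only [fk_mk, fi_mk, fj_mk, fc_mk, ft_mk]
  exact ⟨c0, hc, fun d _ => h d⟩

theorem exists_not_AA {k i j : ℕ} (h : ¬ theta k i j) (c : ℕ) : ∃ t, ¬ AA (mk k i j c t) := by
  unfold theta at h
  push Not at h
  choose g hg using h
  refine ⟨((List.range (c + 1)).map g).sum, ?_⟩
  unfold AA
  simp only [fk_mk, fi_mk, fj_mk, fc_mk, ft_mk]
  rintro ⟨c', h1, h2⟩
  refine hg c' (h2 (g c') ?_)
  refine List.single_le_sum (fun _ _ => Nat.zero_le _) _ (List.mem_map_of_mem ?_)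
  rw [List.mem_range]
  omega

attribute [local irreducible] Nat.pair Nat.unpair

def uu : L2 := tt idx3_prim ⊔ fib AA S1_AA

theorem mem_uu (x : X) : x ∈ uu.1 ↔ x ∈ TT idx3 ∨ x ∈ Fib AA := Iff.rfl

/-- evaluation (i): Jt holds on finitely many good columns -/
theorem Jt_uu_of {k : ℕ} {F : Set ℕ} (hF : F.Finite)
    (hth : ∀ v, v ∈ F → theta k v.unpair.1 v.unpair.2) (c : L2)
    (hc : ∀ n, pt n ∈ c.1 → fk n = k ∧ idx2 n ∈ F) : Jt vt uu c := by
  classical
  have hth' : ∀ v, ∃ w, v ∈ F → ∀ d, rho k v.unpair.1 v.unpair.2 w d := by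
    intro v
    by_cases hv : v ∈ F
    · obtain ⟨w, hw⟩ := hth v hv
      exact ⟨w, fun _ => hw⟩
    · exact ⟨0, fun h => (hv h).elim⟩
  choose w hw using hth'
  -- the finite set of relevant third indices
  obtain ⟨S3, hmemS3⟩ : ∃ S3 : Set ℕ, ∀ v, v ∈ S3 ↔ (v.unpair.1 ∈ F ∧ v.unpair.2 < w v.unpair.1) :=
    ⟨{v | v.unpair.1 ∈ F ∧ v.unpair.2 < w v.unpair.1}, fun v => Iff.rfl⟩
  have hS3 : S3.Finite := by
    have : S3 ⊆ ⋃ u ∈ F, (fun c => Nat.pair u c) '' Set.Iio (w u) := by
      intro v hv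
      rw [hmemS3] at hv
      refine Set.mem_biUnion hv.1 ⟨v.unpair.2, hv.2, Nat.pair_unpair v⟩
    exact (hF.biUnion fun u _ => (Set.finite_Iio _).image _).subset this
  obtain ⟨bad, hbad0⟩ : ∃ bad : ℕ → Set ℕ, ∀ v t, t ∈ bad v ↔
      ¬ AA (mk k v.unpair.1.unpair.1 v.unpair.1.unpair.2 v.unpair.2 t) :=
    ⟨fun v => {t | ¬ AA (mk k v.unpair.1.unpair.1 v.unpair.1.unpair.2 v.unpair.2 t)},
      fun v t => Iff.rfl⟩
  obtain ⟨L, hmemL⟩ : ∃ L : List (ℕ × ℕ), ∀ v t, (v, t) ∈ L ↔ (v ∈ S3 ∧ IsLeast (bad v) t) := by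
    have hL : {e : ℕ × ℕ | e.1 ∈ S3 ∧ IsLeast (bad e.1) e.2}.Finite := by
      have : {e : ℕ × ℕ | e.1 ∈ S3 ∧ IsLeast (bad e.1) e.2} ⊆ (fun v => (v, sInf (bad v))) '' S3 := by
        rintro ⟨v, t⟩ ⟨h1, h2⟩
        exact ⟨v, h1, Prod.ext rfl h2.csInf_eq⟩
      exact (hS3.image _).subset this
    refine ⟨hL.toFinset.toList, fun v t => ?_⟩
    rw [Finset.mem_toList, Set.Finite.mem_toFinset]
    exact Iff.rfl
  obtain ⟨N0, hN0iff⟩ : ∃ N0 : ℕ → Prop, ∀ n, N0 n ↔
      (fk n = k ∧ ∃ e ∈ L, idx3 n = e.1 ∧ e.2 ≤ ft n) := ⟨_, fun n => Iff.rfl⟩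
  have hN0 : S1 N0 := by
    have h0 : S1 fun n => (fk n = k ∧ ∃ e ∈ L, idx3 n = e.1 ∧ e.2 ≤ ft n) := by
      refine S1.prim (PrimrecPred.and (pp_eq fk_prim (Primrec.const k)) ?_)
      have h1 : PrimrecPred fun z : ℕ × (ℕ × ℕ) => idx3 z.1 = z.2.1 ∧ z.2.2 ≤ ft z.1 :=
        PrimrecPred.and (pp_eq (idx3_prim.comp (by repeat (first | with_reducible exact p_id | with_reducible exact p_const _ | with_reducible refine p_fst ?_ | with_reducible refine p_snd ?_ | with_reducible refine p_pair ?_ ?_))) (by repeat (first | with_reducible exact p_id | with_reducible exact p_const _ | with_reducible refine p_fst ?_ | with_reducible refine p_snd ?_ | with_reducible refine p_pair ?_ ?_)))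
          (pp_le (by repeat (first | with_reducible exact p_id | with_reducible exact p_const _ | with_reducible refine p_fst ?_ | with_reducible refine p_snd ?_ | with_reducible refine p_pair ?_ ?_)) (ft_prim.comp (by repeat (first | with_reducible exact p_id | with_reducible exact p_const _ | with_reducible refine p_fst ?_ | with_reducible refine p_snd ?_ | with_reducible refine p_pair ?_ ?_))))
      exact pp_bex h1 (Primrec.const _)
    exact h0.of_eq fun n => (hN0iff n).symm
  have hbad : ∀ n t, t ∈ bad (idx3 n) ↔ ¬ AA (mk k (fi n) (fj n) (fc n) t) := by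
    intro n t
    rw [hbad0]
    simp only [idx3, idx2, Nat.unpair_pair]
  have hmkn : ∀ n, fk n = k → mk k (fi n) (fj n) (fc n) (ft n) = n := by
    rintro n rfl
    exact mk_eta n
  have hsound : ∀ n, N0 n → ¬ AA n := by
    intro n hn
    rw [hN0iff] at hn
    obtain ⟨hk, ⟨v, t⟩, he, h1, h2⟩ := hn
    rw [hmemL] at he
    simp only at h1 h2
    subst h1
    have h3 : t ∈ bad (idx3 n) := he.2.1
    rw [hbad] at h3
    intro h4
    rw [← hmkn n hk] at h4
    exact h3 (AA_anti h2 h4)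
  have hcompl : ∀ n, fk n = k → idx2 n ∈ F → ¬ AA n → N0 n := by
    intro n hk h2 h3
    have h4 : ft n ∈ bad (idx3 n) := by
      rw [hbad, hmkn n hk]
      exact h3
    have h5 : (bad (idx3 n)).Nonempty := ⟨_, h4⟩
    obtain ⟨t, ht⟩ : ∃ t, IsLeast (bad (idx3 n)) t :=
      ⟨sInf (bad (idx3 n)), Nat.sInf_mem h5, fun t ht => Nat.sInf_le ht⟩
    have h9 : (idx3 n).unpair.1 = idx2 n := by simp only [idx3, Nat.unpair_pair]
    have h10 : (idx3 n).unpair.2 = fc n := by simp only [idx3, Nat.unpair_pair]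
    have h11 : fc n < w (idx2 n) := by
      by_contra hcon
      push Not at hcon
      apply h3
      have h6 := hw (idx2 n) h2
      have h12 : (idx2 n).unpair.1 = fi n := by simp only [idx2, Nat.unpair_pair]
      have h13 : (idx2 n).unpair.2 = fj n := by simp only [idx2, Nat.unpair_pair]
      rw [h12, h13] at h6
      rw [← hmkn n hk]
      exact AA_of_theta h6 hcon _
    rw [← h10, ← h9] at h11
    rw [← h9] at h2
    have h14 : idx3 n ∈ S3 := by
      rw [hmemS3]
      constructor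
      · exact h2
      · exact h11
    have h15 : (idx3 n, t) ∈ L := by
      rw [hmemL]
      constructor
      · exact h14
      · exact ht
    have h16 : t ≤ ft n := ht.2 h4
    rw [hN0iff]
    refine And.intro hk (Exists.intro (idx3 n, t) (And.intro h15 ?_))
    constructor
    · rfl
    · exact h16
  obtain ⟨M, hM⟩ := exists_bound S3 hS3 H
  have hMN : ∀ n, N0 n → H (idx3 n) ≤ M := by
    intro n hn
    rw [hN0iff] at hn
    obtain ⟨_, ⟨v, t⟩, he, h1, _⟩ := hn
    rw [hmemL] at he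
    rw [h1]
    exact hM _ he.1
  refine ⟨qq hN0 M, ?_, ?_⟩
  · rw [L2_disj]
    intro x hx hx2
    rcases hx2 with h | h
    · exact QQ_disj_TT hMN hx h
    · obtain ⟨n, h1, h2⟩ := h
      obtain ⟨n', h3, h4, _⟩ := QQ_FT hx
      have := h2.uniq h4
      subst this
      exact hsound n h3 h1
  · intro x hx
    rcases mem_or hx with ⟨n, rfl⟩ | h1
    · obtain ⟨h2, h3⟩ := hc n hx
      by_cases h4 : AA n
      · exact Or.inl (Or.inr (Or.inr ⟨n, h4, FT_pt n⟩))
      · exact Or.inr (pt_mem_QQ (hcompl n h2 h3 h4) M)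
    · exact Or.inl (Or.inl h1)

/-- evaluation (ii): Jt fails on a bad column -/
theorem not_Jt_uu {k i j : ℕ} (h : ¬ theta k i j) (c : L2)
    (hc : ∀ c' t, pt (mk k i j c' t) ∈ c.1) : ¬ Jt vt uu c := by
  rintro ⟨Q, hQ, hle⟩
  rw [L2_disj] at hQ
  have hfin := fin_Q idx3_prim Q.2.1 (fun x hx hx2 => hQ x hx (Or.inl hx2))
  have hsub : Set.range (fun c' => Nat.pair (Nat.pair i j) c') ⊆ {v | ∃ n, idx3 n = v ∧ pt n ∈ Q.1} := by
    rintro _ ⟨c', rfl⟩
    obtain ⟨t, ht⟩ := exists_not_AA h c'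
    refine ⟨mk k i j c' t, idx3_mk _ _ _ _ _, ?_⟩
    rcases hle (hc c' t) with (h1 | h1) | h1
    · exact (pt_not_VT _ h1).elim
    · rcases h1 with h1 | ⟨n, h2, h3⟩
      · exact (pt_not_TT _ _ h1).elim
      · have := h3.uniq (FT_pt _)
        subst this
        exact (ht h2).elim
    · exact h1
  refine Set.infinite_range_of_injective ?_ (hfin.subset hsub)
  intro a b hab
  have := congrArg (fun z => (Nat.unpair z).2) hab
  simpa using this

/-- the invariant in the second lattice -/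
theorem Inv_L2 (k : ℕ) :
    Inv (vv fk_prim 0) vt (tt fi_prim) (tt idx2_prim) uu k ↔ ¬ Un 4 k k := by
  rw [target_iff]
  unfold Inv
  simp only [LB_iff, UB_iff]
  constructor
  · rintro ⟨c, hcc, hLB, hUB, hD⟩ i0
    have hlab : ∀ n, pt n ∈ c.1 → fk n = k := by
      intro n hn
      have := hLB n hn
      have := hUB n hn
      omega
    have hR : PrimrecPred fun n => fi n < i0 := pp_lt fi_prim (Primrec.const i0)
    obtain ⟨e, he, hec, hed, hJ, hnJ⟩ := hD (c ⊓ fib _ (S1.prim hR)) (inf_compl hcc (fib_compl hR))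
      inf_le_left ((Jt_tt fi_prim _).2 (by
        refine (Set.finite_Iio i0).subset ?_
        rintro v ⟨n, rfl, hn⟩
        obtain ⟨n', hn', hn2⟩ := hn.2
        have := (FT_pt n).uniq hn2
        subst this
        exact hn'))
    rw [Jt_tt] at hJ
    rw [L2_disj] at hed
    by_contra hcon
    push Not at hcon
    refine hnJ (Jt_uu_of hJ ?_ e fun n hn => ⟨hlab n (hec hn), n, rfl, hn⟩)
    rintro v ⟨n, rfl, hn⟩
    simp only [idx2, Nat.unpair_pair]
    refine hcon _ ?_ _
    by_contra hlt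
    exact hed _ hn ⟨hec hn, n, by simpa using hlt, FT_pt n⟩
  · intro h
    have hR : PrimrecPred fun n => fk n = k := pp_eq fk_prim (Primrec.const k)
    have hmem : ∀ {R : ℕ → Prop} {n : ℕ}, pt n ∈ Fib R → R n := by
      rintro R n ⟨n', h1, h2⟩
      have := (FT_pt n).uniq h2
      subst this
      exact h1
    refine ⟨fib _ (S1.prim hR), fib_compl hR, fun n hn => ?_, fun n hn => ?_, ?_⟩
    · have : fk n = k := hmem (R := fun n => fk n = k) hn
      omega
    · have : fk n = k := hmem (R := fun n => fk n = k) hn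
      omega
    · intro d hd hdc hJ
      rw [Jt_tt] at hJ
      obtain ⟨i0, hi0⟩ := hJ.bddAbove
      obtain ⟨i, hi, j, hj⟩ := h (i0 + 1)
      have hR2 : PrimrecPred fun n => fk n = k ∧ idx2 n = Nat.pair i j :=
        hR.and (pp_eq idx2_prim (Primrec.const _))
      obtain ⟨d', hd'⟩ := hd
      have hd'c : IsComplemented d' := ⟨d, hd'.symm⟩
      refine ⟨fib _ (S1.prim hR2) ⊓ d', inf_compl (fib_compl hR2) hd'c, ?_, ?_, ?_, ?_⟩
      · intro x hx
        obtain ⟨n, h1, h2⟩ := hx.1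
        exact ⟨n, h1.1, h2⟩
      · rw [L2_disj]
        intro x hx hx2
        exact L2_disj.1 hd'.disjoint x hx2 hx.2
      · rw [Jt_tt]
        refine (Set.finite_singleton (Nat.pair i j)).subset ?_
        rintro v ⟨n, rfl, hn⟩
        have := hmem (R := fun n => fk n = k ∧ idx2 n = Nat.pair i j) hn.1
        exact this.2
      · refine not_Jt_uu hj _ fun c' t => ⟨⟨_, ⟨fk_mk _ _ _ _ _, idx2_mk _ _ _ _ _⟩, FT_pt _⟩, ?_⟩
        have h1 : (⊤ : L2) ≤ d ⊔ d' := codisjoint_iff_le_sup.1 hd'.codisjoint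
        have h2 : pt (mk k i j c' t) ∈ d.1 ∪ d'.1 := h1 (FT_pt _).ne_oo
        refine h2.resolve_left fun h3 => ?_
        have h4 := hi0 ⟨_, fi_mk k i j c' t, h3⟩
        omega

/-- the two lattices are not isomorphic -/
theorem no_iso (Φ : L1 ≃o L2) : False := by
  refine diag 4 ?_
  refine (Sg_Inv (Φ.symm (vv fk_prim 0)) (Φ.symm vt) (Φ.symm (tt fi_prim)) (Φ.symm (tt idx2_prim))
    (Φ.symm uu)).of_eq fun k => ?_
  rw [← Inv_map Φ, ← Inv_L2 k]
  simp only [OrderIso.apply_symm_apply]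

end Pool.Agent.Helper49.Pi01
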