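import Mathlib

set_option autoImplicit false

namespace Pool.Agent.Helper49.Pi01

section defs

variable {α : Type} [Lattice α] [BoundedOrder α]

/-- derivative relation -/
def der (V V' : α) : Prop :=
  ∀ d, IsComplemented d → d ≤ V' ∨ ∃ d1 d2, IsComplemented d1 ∧ IsComplemented d2 ∧
    d1 ≤ d ∧ d2 ≤ d ∧ Disjoint d1 d2 ∧ ¬ d1 ≤ V ∧ ¬ d2 ≤ V

def LB (V0 Vt : α) (k : ℕ) (c : α) : Prop :=
  ∃ V : ℕ → α, V 0 = V0 ∧ (∀ i, i < k → der (V i) (V (i + 1))) ∧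
    ∀ d, IsComplemented d → d ≤ c → d ≤ V k → d ≤ Vt

def UB (V0 Vt : α) (k : ℕ) (c : α) : Prop :=
  ∀ d, IsComplemented d → d ≤ c → LB V0 Vt k d → d ≤ Vt

def Jt (Vt Z c : α) : Prop :=
  ∃ Q, Disjoint Q Z ∧ c ≤ Vt ⊔ Z ⊔ Q

def Dl (Vt T1 T2 U c : α) : Prop :=
  ∀ d, IsComplemented d → d ≤ c → Jt Vt T1 d →
    ∃ e, IsComplemented e ∧ e ≤ c ∧ Disjoint e d ∧ Jt Vt T2 e ∧ ¬ Jt Vt U e

def Inv (V0 Vt T1 T2 U : α) (k : ℕ) : Prop :=
  ∃ c, IsComplemented c ∧ LB V0 Vt k c ∧ UB V0 Vt (k + 1) c ∧ Dl Vt T1 T2 U c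

end defs

section transport

variable {α β : Type} [Lattice α] [BoundedOrder α] [Lattice β] [BoundedOrder β] (Φ : α ≃o β)

theorem isComplemented_map (a : α) : IsComplemented (Φ a) ↔ IsComplemented a := by
  constructor
  · rintro ⟨b, hb⟩
    refine ⟨Φ.symm b, ?_⟩
    have := (Φ.symm.isCompl hb)
    simpa using this
  · rintro ⟨b, hb⟩
    exact ⟨Φ b, Φ.isCompl hb⟩

theorem disjoint_map (a b : α) : Disjoint (Φ a) (Φ b) ↔ Disjoint a b := disjoint_map_orderIso_iff Φ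

theorem der_map (V V' : α) : der (Φ V) (Φ V') ↔ der V V' := by
  unfold der
  rw [Φ.surjective.forall]
  refine forall_congr' fun d => ?_
  rw [isComplemented_map, Φ.le_iff_le]
  refine imp_congr_right fun _ => or_congr_right ?_
  rw [Φ.surjective.exists]
  refine exists_congr fun d1 => ?_
  rw [Φ.surjective.exists]
  refine exists_congr fun d2 => ?_
  simp only [isComplemented_map, Φ.le_iff_le, disjoint_map]

theorem LB_map (V0 Vt : α) (k : ℕ) (c : α) : LB (Φ V0) (Φ Vt) k (Φ c) ↔ LB V0 Vt k c := by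
  unfold LB
  constructor
  · rintro ⟨V, h0, h1, h2⟩
    refine ⟨fun i => Φ.symm (V i), by simp [h0], fun i hi => ?_, fun d hd hdc hdk => ?_⟩
    · have := h1 i hi
      rw [← der_map Φ]
      simpa using this
    · have := h2 (Φ d) ((isComplemented_map Φ d).2 hd) (Φ.le_iff_le.2 hdc) (by
        rw [← Φ.le_symm_apply]; exact hdk)
      exact Φ.le_iff_le.1 this
  · rintro ⟨V, h0, h1, h2⟩
    refine ⟨fun i => Φ (V i), by simp [h0], fun i hi => (der_map Φ _ _).2 (h1 i hi), ?_⟩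
    rw [Φ.surjective.forall]
    intro d
    simp only [isComplemented_map, Φ.le_iff_le]
    exact h2 d

theorem UB_map (V0 Vt : α) (k : ℕ) (c : α) : UB (Φ V0) (Φ Vt) k (Φ c) ↔ UB V0 Vt k c := by
  unfold UB
  rw [Φ.surjective.forall]
  simp only [isComplemented_map, Φ.le_iff_le, LB_map]

theorem Jt_map (Vt Z c : α) : Jt (Φ Vt) (Φ Z) (Φ c) ↔ Jt Vt Z c := by
  unfold Jt
  rw [Φ.surjective.exists]
  simp only [disjoint_map, ← Φ.map_sup, Φ.le_iff_le]

theorem Dl_map (Vt T1 T2 U c : α) :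
    Dl (Φ Vt) (Φ T1) (Φ T2) (Φ U) (Φ c) ↔ Dl Vt T1 T2 U c := by
  unfold Dl
  rw [Φ.surjective.forall]
  refine forall_congr' fun d => ?_
  rw [Φ.surjective.exists]
  simp only [isComplemented_map, Φ.le_iff_le, disjoint_map, Jt_map]

theorem Inv_map (V0 Vt T1 T2 U : α) (k : ℕ) :
    Inv (Φ V0) (Φ Vt) (Φ T1) (Φ T2) (Φ U) k ↔ Inv V0 Vt T1 T2 U k := by
  unfold Inv
  rw [Φ.surjective.exists]
  simp only [isComplemented_map, LB_map, UB_map, Dl_map]

end transport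

end Pool.Agent.Helper49.Pi01
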