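import Pool.Agent.Helper49.Pi01.Arith
import Pool.Agent.Helper49.Pi01.Order

set_option autoImplicit false

namespace Pool.Agent.Helper49.Pi01

open Nat.Partrec (Code)

abbrev X := ℕ → Bool

def pre (x : X) (n : ℕ) : List Bool := (List.range n).map x

theorem pre_length (x : X) (n : ℕ) : (pre x n).length = n := by simp [pre]

theorem pre_take (x : X) (n k : ℕ) : (pre x n).take k = pre x (min k n) := by
  unfold pre
  rw [← List.map_take, List.take_range]

theorem pre_take_le (x : X) {n k : ℕ} (h : k ≤ n) : (pre x n).take k = pre x k := by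
  rw [pre_take, min_eq_left h]

theorem pre_eq_iff (x y : X) (n : ℕ) : pre x n = pre y n ↔ ∀ i, i < n → x i = y i := by
  unfold pre
  rw [List.map_inj_left]
  simp

theorem pre_getElem? (x : X) (n i : ℕ) (h : i < n) : (pre x n)[i]? = some (x i) := by
  simp [pre, h]

/-- extension of a string by zeros -/
def ext (τ : List Bool) : X := fun i => τ.getD i false

theorem pre_ext (τ : List Bool) : pre (ext τ) τ.length = τ := by
  apply List.ext_getElem?
  intro i
  by_cases h : i < τ.length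
  · rw [pre_getElem? _ _ _ h]
    simp [ext, h]
  · rw [List.getElem?_eq_none (by rw [pre_length]; omega), List.getElem?_eq_none (by omega)]

/-- all strings of length n -/
def strs : ℕ → List (List Bool) :=
  Nat.rec [[]] fun _ IH => IH.flatMap fun τ => [τ ++ [false], τ ++ [true]]

theorem strs_prim : Primrec strs := by
  refine Primrec.nat_rec₁ _ ?_
  refine Primrec.list_flatMap (Primrec.snd : Primrec fun z : ℕ × List (List Bool) => z.2) ?_
  have h1 : ∀ b : Bool, Primrec fun z : (ℕ × List (List Bool)) × List Bool => z.2 ++ [b] := by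
    intro b
    exact Primrec.list_append.comp .snd (Primrec.const [b])
  exact Primrec.list_cons.comp (h1 false) (Primrec.list_cons.comp (h1 true) (Primrec.const []))

theorem mem_strs (n : ℕ) : ∀ τ : List Bool, τ ∈ strs n ↔ τ.length = n := by
  induction n with
  | zero => intro τ; simp [strs]
  | succ n ih =>
    intro τ
    have : strs (n + 1) = (strs n).flatMap fun τ => [τ ++ [false], τ ++ [true]] := rfl
    rw [this, List.mem_flatMap]
    constructor
    · rintro ⟨σ, hσ, h⟩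
      rw [ih] at hσ
      simp only [List.mem_cons, List.not_mem_nil, or_false] at h
      rcases h with rfl | rfl <;> simp [hσ]
    · intro h
      have hne : τ ≠ [] := by rintro rfl; simp at h
      refine ⟨τ.dropLast, (ih _).2 (by simp [h]), ?_⟩
      have := List.dropLast_append_getLast hne
      rcases hb : τ.getLast hne with _ | _
      · rw [hb] at this; simp [this]
      · rw [hb] at this; simp [this]

theorem pre_mem_strs (x : X) (n : ℕ) : pre x n ∈ strs n := by
  rw [mem_strs, pre_length]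

/-- computably enumerable open sets -/
def IsO (W : Set X) : Prop := ∃ p : List Bool → Prop, S1 p ∧ ∀ x, x ∈ W ↔ ∃ k, p (pre x k)

theorem IsO.congr {W W' : Set X} (h : IsO W) (hh : ∀ x, x ∈ W' ↔ x ∈ W) : IsO W' := by
  obtain ⟨p, hp, h1⟩ := h
  exact ⟨p, hp, fun x => (hh x).trans (h1 x)⟩

theorem IsO.univ : IsO Set.univ :=
  ⟨fun _ => True, S1.prim pp_true, fun x => by simp⟩

theorem IsO.empty : IsO ∅ :=
  ⟨fun _ => False, S1.prim pp_false, fun x => by simp⟩

theorem IsO.union {W W' : Set X} (h : IsO W) (h' : IsO W') : IsO (W ∪ W') := by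
  obtain ⟨p, hp, h1⟩ := h
  obtain ⟨q, hq, h2⟩ := h'
  refine ⟨fun τ => p τ ∨ q τ, hp.or hq, fun x => ?_⟩
  rw [Set.mem_union, h1, h2, exists_or]

/-- membership of some prefix -/
def hit (p : List Bool → Prop) (τ : List Bool) : Prop := ∃ k, p (τ.take k)

theorem S1_hit {p : List Bool → Prop} (hp : S1 p) : S1 (hit p) := by
  have : S1 fun z : List Bool × ℕ => p (z.1.take z.2) :=
    hp.comp (Primrec.list_take.comp .snd .fst)
  exact this.ex0

theorem hit_pre_mono {p : List Bool → Prop} {x : X} {m n : ℕ} (h : m ≤ n) :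
    hit p (pre x m) → hit p (pre x n) := by
  rintro ⟨k, hk⟩
  refine ⟨min k m, ?_⟩
  rw [pre_take] at hk ⊢
  rwa [min_eq_left (by omega)]

theorem exists_hit {p : List Bool → Prop} {x : X} :
    (∃ k, hit p (pre x k)) ↔ ∃ k, p (pre x k) := by
  constructor
  · rintro ⟨k, j, hj⟩
    rw [pre_take] at hj
    exact ⟨_, hj⟩
  · rintro ⟨k, hk⟩
    exact ⟨k, k, by rwa [pre_take, min_self]⟩

theorem IsO.inter {W W' : Set X} (h : IsO W) (h' : IsO W') : IsO (W ∩ W') := by
  obtain ⟨p, hp, h1⟩ := h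
  obtain ⟨q, hq, h2⟩ := h'
  refine ⟨fun τ => hit p τ ∧ hit q τ, (S1_hit hp).and (S1_hit hq), fun x => ?_⟩
  rw [Set.mem_inter_iff, h1, h2, ← exists_hit (p := p), ← exists_hit (p := q)]
  constructor
  · rintro ⟨⟨m, hm⟩, ⟨n, hn⟩⟩
    exact ⟨max m n, hit_pre_mono (le_max_left _ _) hm, hit_pre_mono (le_max_right _ _) hn⟩
  · rintro ⟨n, hm, hn⟩
    exact ⟨⟨n, hm⟩, ⟨n, hn⟩⟩

theorem IsO.open_at {W : Set X} (h : IsO W) {x : X} (hx : x ∈ W) :
    ∃ k, ∀ y : X, pre y k = pre x k → y ∈ W := by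
  obtain ⟨p, hp, h1⟩ := h
  obtain ⟨k, hk⟩ := (h1 x).1 hx
  exact ⟨k, fun y hy => (h1 y).2 ⟨k, hy ▸ hk⟩⟩

/-- the lattice of c.e. open sets -/
abbrev L1 := {W : Set X // IsO W}

instance : Lattice L1 :=
  Subtype.lattice (fun _ _ hx hy => IsO.union hx hy) (fun _ _ hx hy => IsO.inter hx hy)

instance : BoundedOrder L1 where
  top := ⟨Set.univ, IsO.univ⟩
  bot := ⟨∅, IsO.empty⟩
  le_top _ := Set.subset_univ _
  bot_le _ := Set.empty_subset _

/-- the point zero -/
def oo : X := fun _ => false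

/-- the lattice of c.e. open sets omitting the zero point -/
abbrev L2 := {W : Set X // IsO W ∧ oo ∉ W}

instance : Lattice L2 :=
  Subtype.lattice (fun _ _ hx hy => ⟨IsO.union hx.1 hy.1, fun h => h.elim hx.2 hy.2⟩)
    (fun _ _ hx hy => ⟨IsO.inter hx.1 hy.1, fun h => hx.2 h.1⟩)

theorem ne_oo_iff (x : X) : x ≠ oo ↔ ∃ i, x i = true := by
  constructor
  · intro h
    by_contra hcon
    push Not at hcon
    exact h (funext fun i => by simpa [oo] using hcon i)
  · rintro ⟨i, hi⟩ rfl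
    simp [oo] at hi

theorem mem_pre_iff (x : X) (n : ℕ) : true ∈ pre x n ↔ ∃ i, i < n ∧ x i = true := by
  simp [pre]

theorem IsO_compl_oo : IsO {x : X | x ≠ oo} := by
  refine ⟨fun τ => true ∈ τ, S1.prim (pp_mem (Primrec.const true) Primrec.id), fun x => ?_⟩
  rw [Set.mem_ofPred_eq, ne_oo_iff]
  constructor
  · rintro ⟨i, hi⟩
    exact ⟨i + 1, (mem_pre_iff _ _).2 ⟨i, by omega, hi⟩⟩
  · rintro ⟨k, hk⟩
    obtain ⟨i, _, hi⟩ := (mem_pre_iff _ _).1 hk
    exact ⟨i, hi⟩

instance : BoundedOrder L2 where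
  top := ⟨{x | x ≠ oo}, IsO_compl_oo, fun h => h rfl⟩
  bot := ⟨∅, IsO.empty, fun h => h⟩
  le_top a := fun x hx h => a.2.2 (h ▸ hx)
  bot_le _ := Set.empty_subset _

theorem L1_le {a b : L1} : a ≤ b ↔ ∀ x, x ∈ a.1 → x ∈ b.1 := Iff.rfl
theorem L2_le {a b : L2} : a ≤ b ↔ ∀ x, x ∈ a.1 → x ∈ b.1 := Iff.rfl

theorem L1_disj {a b : L1} : Disjoint a b ↔ ∀ x, x ∈ a.1 → x ∉ b.1 := by
  rw [disjoint_iff_inf_le]
  exact ⟨fun h x hx hy => h (show x ∈ a.1 ∩ b.1 from ⟨hx, hy⟩), fun h x hx => h x hx.1 hx.2⟩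

theorem L2_disj {a b : L2} : Disjoint a b ↔ ∀ x, x ∈ a.1 → x ∉ b.1 := by
  rw [disjoint_iff_inf_le]
  exact ⟨fun h x hx hy => h (show x ∈ a.1 ∩ b.1 from ⟨hx, hy⟩), fun h x hx => h x hx.1 hx.2⟩

theorem L1_compl {a : L1} : IsComplemented a ↔ IsO {x | x ∉ a.1} := by
  constructor
  · rintro ⟨b, hb⟩
    refine b.2.congr fun x => ⟨fun hx => ?_, fun hx hxa => L1_disj.1 hb.disjoint x hxa hx⟩
    have h : (⊤ : L1) ≤ a ⊔ b := codisjoint_iff_le_sup.1 hb.codisjoint
    exact (h (Set.mem_univ x) : x ∈ a.1 ∪ b.1).resolve_left hx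
  · intro h
    refine ⟨⟨_, h⟩, ⟨L1_disj.2 fun x hx hy => hy hx, codisjoint_iff_le_sup.2 fun x _ => ?_⟩⟩
    exact (em (x ∈ a.1) : x ∈ a.1 ∪ {x | x ∉ a.1})

theorem L2_compl {a : L2} : IsComplemented a ↔ IsO {x | x ≠ oo ∧ x ∉ a.1} := by
  constructor
  · rintro ⟨b, hb⟩
    refine b.2.1.congr fun x => ⟨fun hx => ?_, fun hx => ⟨?_, fun hxa => L2_disj.1 hb.disjoint x hxa hx⟩⟩
    · have h : (⊤ : L2) ≤ a ⊔ b := codisjoint_iff_le_sup.1 hb.codisjoint
      exact (h hx.1 : x ∈ a.1 ∪ b.1).resolve_left hx.2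
    · rintro rfl; exact b.2.2 hx
  · intro h
    refine ⟨⟨_, h, fun h => h.1 rfl⟩, ⟨L2_disj.2 fun x hx hy => hy.2 hx, codisjoint_iff_le_sup.2 fun x hx => ?_⟩⟩
    rcases em (x ∈ a.1) with h1 | h1
    · exact (Or.inl h1 : x ∈ a.1 ∪ {x | x ≠ oo ∧ x ∉ a.1})
    · exact (Or.inr ⟨hx, h1⟩ : x ∈ a.1 ∪ {x | x ≠ oo ∧ x ∉ a.1})

/-- the frozen definition of effectively closed classes -/
def IsPi (S : Set X) : Prop :=
  ∃ T : List Bool → Bool, Computable T ∧ S = {x : X | ∀ n : ℕ, T ((List.range n).map x) = true}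

theorem IsO.toPi {W : Set X} (h : IsO W) : IsPi Wᶜ := by
  classical
  obtain ⟨p, hp, h1⟩ := h
  obtain ⟨D, hD, h2⟩ := hp
  have hP : PrimrecPred fun τ : List Bool =>
      ∀ k, k ≤ τ.length → ∀ m, m ≤ τ.length → ¬ D (τ.take k, m) := by
    have e1 : PrimrecPred fun w : (List Bool × ℕ) × ℕ => ¬ D (w.1.1.take w.1.2, w.2) :=
      (hD.comp ((Primrec.list_take.comp (Primrec.snd.comp .fst) (Primrec.fst.comp .fst)).pair
        .snd)).not
    have e2 : PrimrecPred fun w : List Bool × ℕ => ∀ m, m ≤ w.1.length → ¬ D (w.1.take w.2, m) :=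
      pp_ball_le e1 (Primrec.list_length.comp .fst)
    exact pp_ball_le e2 Primrec.list_length
  refine ⟨fun τ => decide (∀ k, k ≤ τ.length → ∀ m, m ≤ τ.length → ¬ D (τ.take k, m)),
    hP.decide.to_comp, ?_⟩
  ext x
  change x ∉ W ↔ ∀ n, decide (∀ k, k ≤ (pre x n).length → ∀ m, m ≤ (pre x n).length →
    ¬ D ((pre x n).take k, m)) = true
  rw [h1]
  simp only [decide_eq_true_eq, pre_length, h2]
  push Not
  constructor
  · intro h n k hk m hm
    rw [pre_take_le x hk]
    exact h k m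
  · intro h k m
    have := h (max k m) k (le_max_left _ _) m (le_max_right _ _)
    rwa [pre_take_le x (le_max_left _ _)] at this

theorem S1_of_computable {T : List Bool → Bool} (hT : Computable T) :
    S1 fun τ => T τ = false := by
  obtain ⟨c, hc⟩ := Code.exists_code.1 (hT.partrec : Partrec (T : List Bool →. Bool))
  have h : S1 fun τ : List Bool => Encodable.encode false ∈ Code.eval c (Encodable.encode τ) :=
    S1_eval.comp (f := fun τ : List Bool => ((c, Encodable.encode τ), Encodable.encode false))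
      (((Primrec.const c).pair Primrec.encode).pair (Primrec.const _))
  refine h.of_eq fun τ => ?_
  rw [hc]
  cases h1 : T τ <;> simp [h1]

theorem IsPi.toO {S : Set X} (h : IsPi S) : IsO Sᶜ := by
  obtain ⟨T, hT, rfl⟩ := h
  refine ⟨_, S1_of_computable hT, fun x => ?_⟩
  simp only [Set.mem_compl_iff, Set.mem_ofPred_eq, not_forall, pre, Bool.not_eq_true]

/-- closed supersets of the empty class are dual to c.e. open sets -/
def e1 : L1 ≃o ({S : Set X // IsPi S ∧ (∅ : Set X) ⊆ S})ᵒᵈ where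
  toFun W := OrderDual.toDual ⟨W.1ᶜ, W.2.toPi, Set.empty_subset _⟩
  invFun S := ⟨(OrderDual.ofDual S).1ᶜ, (OrderDual.ofDual S).2.1.toO⟩
  left_inv W := by
    apply Subtype.ext
    exact compl_compl _
  right_inv S := by
    apply OrderDual.ofDual.injective
    apply Subtype.ext
    exact compl_compl _
  map_rel_iff' := by
    intro a b
    exact Set.compl_subset_compl

def e2 : L2 ≃o ({S : Set X // IsPi S ∧ ({oo} : Set X) ⊆ S})ᵒᵈ where
  toFun W := OrderDual.toDual ⟨W.1ᶜ, W.2.1.toPi, by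
    rintro x rfl; exact W.2.2⟩
  invFun S := ⟨(OrderDual.ofDual S).1ᶜ, (OrderDual.ofDual S).2.1.toO, fun h => h ((OrderDual.ofDual S).2.2 rfl)⟩
  left_inv W := by
    apply Subtype.ext
    exact compl_compl _
  right_inv S := by
    apply OrderDual.ofDual.injective
    apply Subtype.ext
    exact compl_compl _
  map_rel_iff' := by
    intro a b
    exact Set.compl_subset_compl

end Pool.Agent.Helper49.Pi01
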